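import Pool.Agent.Helper442.Top

set_option autoImplicit false

namespace Pool.Agent.Helper442.Vec

/-- all flags on -/
def tt : ℕ → Bool := fun _ => true

/-- wide strip -/
def lo4 (i : ℕ) : ℤ := ((i : ℤ) - 3) / 2
/-- wide strip -/
def hi4 (i : ℕ) : ℤ := ((i : ℤ) + 4) / 2
/-- narrow strip -/
def lo2 (i : ℕ) : ℤ := ((i : ℤ) - 1) / 2
/-- narrow strip -/
def hi2 (i : ℕ) : ℤ := ((i : ℤ) + 2) / 2

theorem vec_succ (u v : ℕ → Bool) (lo hi : ℕ → ℤ) (i : ℕ) :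
    vec u v lo hi (i + 1) = stp (u i) (v i) (lo (i + 1)) (hi (i + 1)) (vec u v lo hi i) := rfl

theorem T_end (lo hi : ℕ → ℤ) (k : ℕ) (p : Bool)
    (h1 : lo (2 * k + 2) ≤ k + 1) (h2 : (k : ℤ) + 1 ≤ hi (2 * k + 2)) :
    T tt tt lo hi (2 * k + 2) (k + 1) 0 (2 * k + 1) p true = mvec tt tt lo hi 0 p (2 * k + 1) k ∧
    T tt tt lo hi (2 * k + 2) (k + 1) 0 (2 * k + 1) p false =
      mvec tt tt lo hi 0 p (2 * k + 1) (k + 1) := by
  have key : ∀ q, vec (mkU (mkU tt 0 p) (2 * k + 1) q) (mkV (mkV tt 0 p) (2 * k + 1) q) lo hi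
      (2 * k + 1) = mvec tt tt lo hi 0 p (2 * k + 1) := by
    intro q
    unfold mvec
    apply vec_congr
    · intro j hj
      simp [mkU, show j ≠ 2 * k + 1 by omega]
    · intro j hj
      simp [mkV, show j ≠ 2 * k + 1 by omega]
  constructor
  · unfold T
    rw [show 2 * k + 2 = (2 * k + 1) + 1 by ring, vec_succ, key true]
    unfold stp
    rw [if_pos ⟨by rw [show 2 * k + 1 + 1 = 2 * k + 2 by ring]; exact h1,
      by rw [show 2 * k + 1 + 1 = 2 * k + 2 by ring]; exact h2⟩]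
    simp [mkU, mkV]
  · unfold T
    rw [show 2 * k + 2 = (2 * k + 1) + 1 by ring, vec_succ, key false]
    unfold stp
    rw [if_pos ⟨by rw [show 2 * k + 1 + 1 = 2 * k + 2 by ring]; exact h1,
      by rw [show 2 * k + 1 + 1 = 2 * k + 2 by ring]; exact h2⟩]
    simp [mkU, mkV]

theorem mvec_out (lo hi : ℕ → ℤ) (p : Bool) (i : ℕ) (x : ℤ)
    (h : x < lo (i + 1) ∨ hi (i + 1) < x) : mvec tt tt lo hi 0 p (i + 1) x = 0 := by
  unfold mvec
  rw [vec_succ]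
  unfold stp
  rw [if_neg (by omega)]

theorem two_step (lo hi : ℕ → ℤ) (p : Bool) (j : ℕ) (x : ℤ)
    (h1 : lo (2 * j + 3) ≤ x) (h2 : x ≤ hi (2 * j + 3))
    (h3 : lo (2 * j + 2) + 1 ≤ x) (h4 : x ≤ hi (2 * j + 2)) :
    mvec tt tt lo hi 0 p (2 * (j + 1) + 1) x =
      mvec tt tt lo hi 0 p (2 * j + 1) x + 2 * mvec tt tt lo hi 0 p (2 * j + 1) (x - 1) +
      mvec tt tt lo hi 0 p (2 * j + 1) (x - 2) := by
  rw [show 2 * (j + 1) + 1 = (2 * j + 2) + 1 by ring, mvec_succ _ _ _ _ _ _ _ (by omega)]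
  rw [show 2 * j + 2 = (2 * j + 1) + 1 by ring, mvec_succ _ _ _ _ _ _ _ (by omega)]
  simp only [tt, stp_tt, tr, fr]
  rw [show 2 * j + 1 + 1 + 1 = 2 * j + 3 by ring, show 2 * j + 1 + 1 = 2 * j + 2 by ring]
  rw [if_pos ⟨h1, h2⟩, if_pos ⟨by omega, h4⟩, if_pos ⟨by omega, by omega⟩]
  rw [show x - 1 - 1 = x - 2 by ring]
  ring

/-- explicit vectors, wide strip -/
def W4 (s : ℤ × ℤ × ℤ × ℤ) : ℕ → ℤ × ℤ × ℤ × ℤ
  | 0 => s
  | (j + 1) => (2 * (W4 s j).1 + (W4 s j).2.1,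
      (W4 s j).1 + 2 * (W4 s j).2.1 + (W4 s j).2.2.1,
      (W4 s j).2.1 + 2 * (W4 s j).2.2.1 + (W4 s j).2.2.2,
      (W4 s j).2.2.1 + 2 * (W4 s j).2.2.2)

theorem W4_succ (s : ℤ × ℤ × ℤ × ℤ) (j : ℕ) : W4 s (j + 1) = (2 * (W4 s j).1 + (W4 s j).2.1,
      (W4 s j).1 + 2 * (W4 s j).2.1 + (W4 s j).2.2.1,
      (W4 s j).2.1 + 2 * (W4 s j).2.2.1 + (W4 s j).2.2.2,
      (W4 s j).2.2.1 + 2 * (W4 s j).2.2.2) := rfl

/-- explicit vectors, narrow strip -/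
def W2 (s : ℤ × ℤ) : ℕ → ℤ × ℤ
  | 0 => s
  | (j + 1) => (2 * (W2 s j).1 + (W2 s j).2, (W2 s j).1 + 2 * (W2 s j).2)

theorem W2_succ (s : ℤ × ℤ) (j : ℕ) :
    W2 s (j + 1) = (2 * (W2 s j).1 + (W2 s j).2, (W2 s j).1 + 2 * (W2 s j).2) := rfl

/-- starting vector -/
def s4 (p : Bool) : ℤ × ℤ × ℤ × ℤ := if p = true then (0, 0, 1, 0) else (0, 1, 0, 0)

/-- starting vector -/
def s2 (p : Bool) : ℤ × ℤ := if p = true then (0, 1) else (1, 0)

theorem wide (p : Bool) (j : ℕ) :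
    mvec tt tt lo4 hi4 0 p (2 * j + 1) (j - 1) = (W4 (s4 p) j).1 ∧
    mvec tt tt lo4 hi4 0 p (2 * j + 1) j = (W4 (s4 p) j).2.1 ∧
    mvec tt tt lo4 hi4 0 p (2 * j + 1) (j + 1) = (W4 (s4 p) j).2.2.1 ∧
    mvec tt tt lo4 hi4 0 p (2 * j + 1) (j + 2) = (W4 (s4 p) j).2.2.2 := by
  induction j with
  | zero =>
    rw [show 2 * 0 + 1 = 0 + 1 by ring, mvec_start]
    simp only [vec, W4, tr, lo4, hi4, s4]
    cases p
    · simp
    · simp [sh]
  | succ j ih =>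
    obtain ⟨i0, i1, i2, i3⟩ := ih
    have a1 : lo4 (2 * j + 1) = j - 1 := by unfold lo4; push_cast; omega
    have a2 : hi4 (2 * j + 1) = j + 2 := by unfold hi4; push_cast; omega
    have a3 : lo4 (2 * j + 3) = j := by unfold lo4; push_cast; omega
    have a4 : hi4 (2 * j + 3) = j + 3 := by unfold hi4; push_cast; omega
    have a5 : lo4 (2 * j + 2) = j - 1 := by unfold lo4; push_cast; omega
    have a6 : hi4 (2 * j + 2) = j + 3 := by unfold hi4; push_cast; omega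
    have o1 := mvec_out lo4 hi4 p (2 * j) (j - 2) (by left; rw [a1]; omega)
    have o2 := mvec_out lo4 hi4 p (2 * j) (j + 3) (by right; rw [a2]; omega)
    rw [W4_succ]
    simp only
    push_cast
    refine ⟨?_, ?_, ?_, ?_⟩
    · rw [two_step _ _ _ _ _ (by omega) (by omega) (by omega) (by omega)]
      rw [show (j : ℤ) + 1 - 1 = j by ring, i0, i1, o1]
      ring
    · rw [two_step _ _ _ _ _ (by omega) (by omega) (by omega) (by omega)]
      rw [show (j : ℤ) + 1 - 1 = j by ring, show (j : ℤ) + 1 - 2 = j - 1 by ring, i0, i1, i2]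
      ring
    · rw [two_step _ _ _ _ _ (by omega) (by omega) (by omega) (by omega)]
      rw [show (j : ℤ) + 1 + 1 = j + 2 by ring, show (j : ℤ) + 2 - 1 = j + 1 by ring,
        show (j : ℤ) + 2 - 2 = j by ring, i1, i2, i3]
      ring
    · rw [two_step _ _ _ _ _ (by omega) (by omega) (by omega) (by omega)]
      rw [show (j : ℤ) + 1 + 2 = j + 3 by ring, show (j : ℤ) + 3 - 1 = j + 2 by ring,
        show (j : ℤ) + 3 - 2 = j + 1 by ring, i2, i3, o2]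
      ring

theorem narrow (p : Bool) (j : ℕ) :
    mvec tt tt lo2 hi2 0 p (2 * j + 1) j = (W2 (s2 p) j).1 ∧
    mvec tt tt lo2 hi2 0 p (2 * j + 1) (j + 1) = (W2 (s2 p) j).2 := by
  induction j with
  | zero =>
    rw [show 2 * 0 + 1 = 0 + 1 by ring, mvec_start]
    simp only [vec, W2, tr, lo2, hi2, s2]
    cases p
    · simp
    · simp [sh]
  | succ j ih =>
    obtain ⟨i1, i2⟩ := ih
    have a1 : lo2 (2 * j + 1) = j := by unfold lo2; push_cast; omega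
    have a2 : hi2 (2 * j + 1) = j + 1 := by unfold hi2; push_cast; omega
    have a3 : lo2 (2 * j + 3) = j + 1 := by unfold lo2; push_cast; omega
    have a4 : hi2 (2 * j + 3) = j + 2 := by unfold hi2; push_cast; omega
    have a5 : lo2 (2 * j + 2) = j := by unfold lo2; push_cast; omega
    have a6 : hi2 (2 * j + 2) = j + 2 := by unfold hi2; push_cast; omega
    have o1 := mvec_out lo2 hi2 p (2 * j) (j - 1) (by left; rw [a1]; omega)
    have o2 := mvec_out lo2 hi2 p (2 * j) (j + 2) (by right; rw [a2]; omega)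
    rw [W2_succ]
    simp only
    push_cast
    refine ⟨?_, ?_⟩
    · rw [two_step _ _ _ _ _ (by omega) (by omega) (by omega) (by omega)]
      rw [show (j : ℤ) + 1 - 1 = j by ring, show (j : ℤ) + 1 - 2 = j - 1 by ring, i1, i2, o1]
      ring
    · rw [two_step _ _ _ _ _ (by omega) (by omega) (by omega) (by omega)]
      rw [show (j : ℤ) + 1 + 1 = j + 2 by ring, show (j : ℤ) + 2 - 1 = j + 1 by ring,
        show (j : ℤ) + 2 - 2 = j by ring, i1, i2, o2]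
      ring

theorem W4_rev (j : ℕ) : (W4 (s4 false) j).1 = (W4 (s4 true) j).2.2.2 ∧
    (W4 (s4 false) j).2.1 = (W4 (s4 true) j).2.2.1 ∧
    (W4 (s4 false) j).2.2.1 = (W4 (s4 true) j).2.1 ∧
    (W4 (s4 false) j).2.2.2 = (W4 (s4 true) j).1 := by
  induction j with
  | zero => simp [W4, s4]
  | succ j ih =>
    obtain ⟨i0, i1, i2, i3⟩ := ih
    rw [W4_succ, W4_succ]
    simp only
    rw [i0, i1, i2, i3]
    refine ⟨?_, ?_, ?_, ?_⟩ <;> ring

theorem W4_growth (j : ℕ) : 0 ≤ (W4 (s4 true) j).1 ∧ 0 ≤ (W4 (s4 true) j).2.1 ∧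
    1 ≤ (W4 (s4 true) j).2.2.1 ∧ 0 ≤ (W4 (s4 true) j).2.2.2 ∧
    0 ≤ (W4 (s4 true) j).2.2.2 - (W4 (s4 true) j).1 ∧
    3 * ((W4 (s4 true) j).2.2.2 - (W4 (s4 true) j).1) ≤
      5 * ((W4 (s4 true) j).2.2.1 - (W4 (s4 true) j).2.1) ∧
    3 ^ j * ((W4 (s4 true) j).2.2.1 - (W4 (s4 true) j).2.1) ≤ 8 ^ j := by
  induction j with
  | zero => simp [W4, s4]
  | succ j ih =>
    obtain ⟨i0, i1, i2, i3, i4, i5, i6⟩ := ih
    rw [W4_succ]
    simp only
    generalize (W4 (s4 true) j) = w at *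
    obtain ⟨w0, w1, w2, w3⟩ := w
    simp only at *
    refine ⟨by omega, by omega, by omega, by omega, by omega, by omega, ?_⟩
    rw [pow_succ, pow_succ]
    have h3 : (0 : ℤ) < 3 ^ j := by positivity
    have h : 3 * (w1 + 2 * w2 + w3 - (w0 + 2 * w1 + w2)) ≤ 8 * (w2 - w1) := by omega
    calc 3 ^ j * 3 * (w1 + 2 * w2 + w3 - (w0 + 2 * w1 + w2)) =
        3 ^ j * (3 * (w1 + 2 * w2 + w3 - (w0 + 2 * w1 + w2))) := by ring
      _ ≤ 3 ^ j * (8 * (w2 - w1)) := by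
        exact mul_le_mul_of_nonneg_left h h3.le
      _ = 8 * (3 ^ j * (w2 - w1)) := by ring
      _ ≤ 8 * 8 ^ j := by linarith
      _ = 8 ^ j * 8 := by ring

theorem W2_growth (j : ℕ) : (W2 (s2 true) j).2 - (W2 (s2 true) j).1 = 1 ∧
    (W2 (s2 true) j).2 + (W2 (s2 true) j).1 = 3 ^ j := by
  induction j with
  | zero => simp [W2, s2]
  | succ j ih =>
    obtain ⟨i0, i1⟩ := ih
    rw [W2_succ]
    simp only
    refine ⟨by omega, ?_⟩
    rw [pow_succ, ← i1]; ring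

/-- number of strip sets by behaviour at the two ends -/
theorem cn_wide (k : ℕ) :
    (cn (SF lo4 hi4 (2 * k + 2) (k + 1)) 0 (2 * k + 1) true true : ℤ) = (W4 (s4 true) k).2.1 ∧
    (cn (SF lo4 hi4 (2 * k + 2) (k + 1)) 0 (2 * k + 1) true false : ℤ) =
      (W4 (s4 true) k).2.2.1 ∧
    (cn (SF lo4 hi4 (2 * k + 2) (k + 1)) 0 (2 * k + 1) false true : ℤ) =
      (W4 (s4 true) k).2.2.1 ∧
    (cn (SF lo4 hi4 (2 * k + 2) (k + 1)) 0 (2 * k + 1) false false : ℤ) =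
      (W4 (s4 true) k).2.1 := by
  have h1 : lo4 (2 * k + 2) ≤ k + 1 := by unfold lo4; push_cast; omega
  have h2 : (k : ℤ) + 1 ≤ hi4 (2 * k + 2) := by unfold hi4; push_cast; omega
  have e : ∀ p q, (cn (SF lo4 hi4 (2 * k + 2) (k + 1)) 0 (2 * k + 1) p q : ℤ) =
      T tt tt lo4 hi4 (2 * k + 2) (k + 1) 0 (2 * k + 1) p q := by
    intro p q
    exact cn_T (by omega) (by omega) (by omega) rfl rfl rfl rfl p q
  obtain ⟨w0, w1, w2, w3⟩ := wide true k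
  obtain ⟨v0, v1, v2, v3⟩ := wide false k
  obtain ⟨r0, r1, r2, r3⟩ := W4_rev k
  refine ⟨?_, ?_, ?_, ?_⟩
  · rw [e, (T_end _ _ _ _ h1 h2).1, w1]
  · rw [e, (T_end _ _ _ _ h1 h2).2, w2]
  · rw [e, (T_end _ _ _ _ h1 h2).1, v1, r1]
  · rw [e, (T_end _ _ _ _ h1 h2).2, v2, r2]

theorem cn_narrow (k : ℕ) :
    2 * (cn (SF lo2 hi2 (2 * k + 2) (k + 1)) 0 (2 * k + 1) true false : ℤ) = 3 ^ k + 1 := by
  have h1 : lo2 (2 * k + 2) ≤ k + 1 := by unfold lo2; push_cast; omega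
  have h2 : (k : ℤ) + 1 ≤ hi2 (2 * k + 2) := by unfold hi2; push_cast; omega
  have e : ∀ p q, (cn (SF lo2 hi2 (2 * k + 2) (k + 1)) 0 (2 * k + 1) p q : ℤ) =
      T tt tt lo2 hi2 (2 * k + 2) (k + 1) 0 (2 * k + 1) p q := by
    intro p q
    exact cn_T (by omega) (by omega) (by omega) rfl rfl rfl rfl p q
  obtain ⟨w1, w2⟩ := narrow true k
  obtain ⟨g1, g2⟩ := W2_growth k
  rw [e, (T_end _ _ _ _ h1 h2).2, w2]
  omega

end Pool.Agent.Helper442.Vec
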