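import Pool.Agent.Helper442.Cnt

set_option autoImplicit false

namespace Pool.Agent.Helper442.Vec

open Classical in
/-- small subsets -/
noncomputable def smallSets (n D : ℕ) : Finset (Finset ℕ) :=
  (Finset.range n).powerset.filter (fun U => U.card ≤ D)

theorem card_smallSets (n D : ℕ) : (smallSets n D).card ≤ (n + 1) ^ D := by
  classical
  induction D with
  | zero =>
    have : smallSets n 0 ⊆ {∅} := by
      intro U hU
      simp only [smallSets, Finset.mem_filter] at hU
      have := Finset.card_eq_zero.1 (Nat.le_zero.1 hU.2)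
      simp [this]
    simpa using Finset.card_le_card this
  | succ D ih =>
    have hsub : smallSets n (D + 1) ⊆ smallSets n D ∪
        ((Finset.range n) ×ˢ (smallSets n D)).image (fun p => insert p.1 p.2) := by
      intro U hU
      simp only [smallSets, Finset.mem_filter, Finset.mem_powerset] at hU
      by_cases h : U.card ≤ D
      · exact Finset.mem_union_left _ (by
          simp only [smallSets, Finset.mem_filter, Finset.mem_powerset]; exact ⟨hU.1, h⟩)
      · have hne : U.Nonempty := by
          rw [← Finset.card_pos]; omega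
        obtain ⟨a, ha⟩ := hne
        apply Finset.mem_union_right
        rw [Finset.mem_image]
        refine ⟨(a, U.erase a), ?_, Finset.insert_erase ha⟩
        rw [Finset.mem_product]
        refine ⟨hU.1 ha, ?_⟩
        simp only [smallSets, Finset.mem_filter, Finset.mem_powerset]
        refine ⟨(Finset.erase_subset _ _).trans hU.1, ?_⟩
        rw [Finset.card_erase_of_mem ha]; omega
    calc (smallSets n (D + 1)).card ≤ _ := Finset.card_le_card hsub
      _ ≤ (smallSets n D).card + (((Finset.range n) ×ˢ (smallSets n D)).image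
          (fun p => insert p.1 p.2)).card := Finset.card_union_le _ _
      _ ≤ (smallSets n D).card + ((Finset.range n) ×ˢ (smallSets n D)).card := by
          have := Finset.card_image_le (s := (Finset.range n) ×ˢ (smallSets n D))
            (f := fun p : ℕ × Finset ℕ => insert p.1 p.2)
          omega
      _ = (smallSets n D).card + n * (smallSets n D).card := by
          rw [Finset.card_product, Finset.card_range]
      _ = (n + 1) * (smallSets n D).card := by ring
      _ ≤ (n + 1) * (n + 1) ^ D := Nat.mul_le_mul_left _ ih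
      _ = (n + 1) ^ (D + 1) := by ring

theorem exists_code (n D : ℕ) (Cand : Finset (Finset ℕ)) (hC : ∀ S ∈ Cand, ∀ i ∈ S, i < n) :
    ∃ C ⊆ Cand, (∀ S ∈ C, ∀ S' ∈ C, S ≠ S' → D < (symmDiff S S').card) ∧
      Cand.card ≤ C.card * (n + 1) ^ D := by
  classical
  induction hk : Cand.card using Nat.strong_induction_on generalizing Cand with
  | _ k ih =>
    rcases Cand.eq_empty_or_nonempty with h | ⟨H, hH⟩
    · refine ⟨∅, by simp, by simp, ?_⟩
      rw [← hk, h]; simp
    · set Cand' := Cand.filter (fun S => D < (symmDiff H S).card) with hCand'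
      have hHn : H ∉ Cand' := by
        rw [hCand', Finset.mem_filter]; simp
      have hlt : Cand'.card < k := by
        rw [← hk]
        apply Finset.card_lt_card
        rw [Finset.ssubset_iff_subset_ne]
        refine ⟨Finset.filter_subset _ _, fun h => hHn (h ▸ hH)⟩
      obtain ⟨C', h1, h2, h3⟩ := ih Cand'.card hlt Cand'
        (fun S hS => hC S (Finset.mem_of_mem_filter S hS)) rfl
      refine ⟨insert H C', ?_, ?_, ?_⟩
      · intro S hS
        rcases Finset.mem_insert.1 hS with h | h
        · rw [h]; exact hH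
        · exact Finset.mem_of_mem_filter S (h1 h)
      · intro S hS S' hS' hne
        rcases Finset.mem_insert.1 hS with h | h
        · rcases Finset.mem_insert.1 hS' with h' | h'
          · exact absurd (h.trans h'.symm) hne
          · have := h1 h'
            rw [hCand', Finset.mem_filter] at this
            rw [h]; exact this.2
        · rcases Finset.mem_insert.1 hS' with h' | h'
          · have := h1 h
            rw [hCand', Finset.mem_filter] at this
            rw [h', symmDiff_comm]; exact this.2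
          · exact h2 S h S' h' hne
      · have hHC : H ∉ C' := fun h => hHn (h1 h)
        rw [Finset.card_insert_of_notMem hHC]
        have hball : (Cand.filter (fun S => ¬ D < (symmDiff H S).card)).card ≤ (n + 1) ^ D := by
          refine le_trans ?_ (card_smallSets n D)
          apply Finset.card_le_card_of_injOn (fun S => symmDiff H S)
          · intro S hS
            simp only [Finset.coe_filter, Set.mem_ofPred_eq] at hS
            simp only [smallSets, Finset.coe_filter, Set.mem_ofPred_eq, Finset.mem_powerset]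
            refine ⟨?_, by omega⟩
            intro i hi
            rw [Finset.mem_symmDiff] at hi
            rw [Finset.mem_range]
            rcases hi with ⟨h, _⟩ | ⟨h, _⟩
            · exact hC H hH i h
            · exact hC S hS.1 i h
          · intro S _ S' _ h
            exact symmDiff_right_injective H h
        have hsplit := Finset.card_filter_add_card_filter_not (s := Cand)
          (fun S => D < (symmDiff H S).card)
        rw [← hk]
        rw [← hCand'] at hsplit
        calc Cand.card = Cand'.card + _ := hsplit.symm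
          _ ≤ C'.card * (n + 1) ^ D + (n + 1) ^ D := by omega
          _ = (C'.card + 1) * (n + 1) ^ D := by ring

theorem exists_param (D : ℕ) : ∃ k : ℕ, 6 * (2 * k + 3) ^ D * 8 ^ k ≤ 9 ^ k := by
  have h := tendsto_pow_const_div_const_pow_of_one_lt D (show (1 : ℝ) < 9 / 8 by norm_num)
  have h2 : (0 : ℝ) < 1 / (6 * 5 ^ D) := by positivity
  have h3 := (h.eventually (gt_mem_nhds h2)).and (Filter.eventually_ge_atTop 1)
  obtain ⟨k, hk, hk1⟩ := h3.exists
  refine ⟨k, ?_⟩
  have h4 : (0 : ℝ) < (9 / 8) ^ k := by positivity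
  rw [div_lt_div_iff₀ h4 (by positivity)] at hk
  have h5 : (6 : ℝ) * (5 * k) ^ D < (9 / 8) ^ k := by
    rw [mul_pow]; linarith
  have h6 : ((2 * k + 3 : ℕ) : ℝ) ^ D ≤ (5 * k) ^ D := by
    apply pow_le_pow_left₀ (by positivity)
    have : (1 : ℝ) ≤ k := by exact_mod_cast hk1
    push_cast; linarith
  have h7 : (6 : ℝ) * ((2 * k + 3 : ℕ) : ℝ) ^ D * 8 ^ k ≤ 9 ^ k := by
    have h8 : (0 : ℝ) < 8 ^ k := by positivity
    have h9 : ((9 : ℝ) / 8) ^ k * 8 ^ k = 9 ^ k := by
      rw [← mul_pow]; norm_num
    rw [← h9]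
    apply mul_le_mul_of_nonneg_right _ h8.le
    linarith
  exact_mod_cast h7

theorem lo4_hi4_inn {n : ℕ} {r : ℤ} {S : Finset ℕ} (h : S ∈ SF lo2 hi2 n r) :
    Inn lo4 hi4 n S ∧ S ∈ SF lo4 hi4 n r := by
  rw [mem_SF] at h
  obtain ⟨h1, h2, h3⟩ := h
  constructor
  · intro i hi
    have := h2 i hi
    unfold lo2 hi2 at this
    unfold lo4 hi4
    omega
  · rw [mem_SF]
    refine ⟨h1, ?_, h3⟩
    intro i hi
    have := h2 i hi
    unfold lo2 hi2 at this
    unfold lo4 hi4
    omega

theorem symmDiff_swap {H : Finset ℕ} {a b : ℕ} (ha : a ∈ H) (hb : b ∉ H) :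
    (symmDiff H (insert b (H.erase a))).card ≤ 2 := by
  classical
  have : symmDiff H (insert b (H.erase a)) ⊆ {a, b} := by
    intro i hi
    rw [Finset.mem_symmDiff] at hi
    simp only [Finset.mem_insert, Finset.mem_erase, Finset.mem_singleton] at *
    rcases hi with ⟨h1, h2⟩ | ⟨h1, h2⟩
    · left; by_contra h3; exact h2 (Or.inr ⟨h3, h1⟩)
    · rcases h1 with h1 | h1
      · exact Or.inr h1
      · exact absurd h1.2 h2
  exact (Finset.card_le_card this).trans Finset.card_le_two

theorem main_exists (n0 : ℕ) :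
    ∃ k : ℕ, n0 ≤ k ∧ ∃ M : Matroid (Fin k), M.E = Set.univ ∧ ¬ NCE M.E M.IsBase ∧
      ∀ N : Matroid (Fin k), N.IsStrictMinor M → NCE N.E N.IsBase := by
  classical
  obtain ⟨D, hD1, hD2⟩ : ∃ D, n0 ≤ D ∧ 2 ≤ D := ⟨max n0 2, le_max_left _ _, le_max_right _ _⟩
  obtain ⟨k, hk⟩ := exists_param D
  obtain ⟨n, hn⟩ : ∃ n, n = 2 * k + 2 := ⟨_, rfl⟩
  obtain ⟨r, hr⟩ : ∃ r : ℤ, r = k + 1 := ⟨_, rfl⟩
  obtain ⟨f, hf⟩ : ∃ f, f = 2 * k + 1 := ⟨_, rfl⟩
  set Cand := (SF lo2 hi2 n r).filter
    (fun S => (0 ∈ S ↔ true = true) ∧ (f ∈ S ↔ false = true)) with hCand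
  obtain ⟨C, hCs, hCd, hCc⟩ := exists_code n D Cand (by
    intro S hS
    rw [hCand, Finset.mem_filter] at hS
    exact (mem_SF.1 hS.1).1)
  have hCand2 : 2 * (Cand.card : ℤ) = 3 ^ k + 1 := by
    have := cn_narrow k
    rw [← hn, ← hr, ← hf] at this
    unfold cn at this
    rw [hCand]; exact this
  obtain ⟨c1, c2, c3, c4⟩ := cn_wide k
  rw [← hn, ← hr, ← hf] at c1 c2 c3 c4
  obtain ⟨g0, g1, g2, g3, g4, g5, g6⟩ := W4_growth k
  generalize (W4 (s4 true) k) = w at *
  obtain ⟨w0, w1, w2, w3⟩ := w
  simp only at *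
  have hmem : ∀ S ∈ C, S ∈ SF lo4 hi4 n r ∧ Inn lo4 hi4 n S ∧ 0 ∈ S ∧ f ∉ S := by
    intro S hS
    have := hCs hS
    rw [hCand, Finset.mem_filter] at this
    have h2 := lo4_hi4_inn this.1
    exact ⟨h2.2, h2.1, this.2.1.2 (by simp), fun h => by have := this.2.2.1 h; simp at this⟩
  have hX : 2 * (w2 - w1) + 1 ≤ (C.card : ℤ) := by
    by_contra hcon
    have h1 : (C.card : ℤ) ≤ 2 * (w2 - w1) := by omega
    have h2 : (Cand.card : ℤ) ≤ C.card * (n + 1) ^ D := by exact_mod_cast hCc
    have h3 : ((n : ℤ) + 1) = 2 * k + 3 := by rw [hn]; push_cast; ring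
    rw [h3] at h2
    have hP : (0 : ℤ) < (2 * k + 3) ^ D := by positivity
    have h4 : (Cand.card : ℤ) ≤ 2 * (w2 - w1) * (2 * k + 3) ^ D :=
      h2.trans (mul_le_mul_of_nonneg_right h1 hP.le)
    have h5 : (3 : ℤ) ^ k ≤ 4 * (w2 - w1) * (2 * k + 3) ^ D := by linarith
    have h6 : (9 : ℤ) ^ k ≤ 4 * (3 ^ k * (w2 - w1)) * (2 * k + 3) ^ D := by
      calc (9 : ℤ) ^ k = 3 ^ k * 3 ^ k := by rw [← mul_pow]; norm_num
        _ ≤ 3 ^ k * (4 * (w2 - w1) * (2 * k + 3) ^ D) :=
            mul_le_mul_of_nonneg_left h5 (by positivity)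
        _ = _ := by ring
    have h7 : (4 : ℤ) * (3 ^ k * (w2 - w1)) * (2 * k + 3) ^ D ≤ 4 * 8 ^ k * (2 * k + 3) ^ D := by
      apply mul_le_mul_of_nonneg_right _ hP.le
      linarith
    have h8 : (6 : ℤ) * (2 * k + 3) ^ D * 8 ^ k ≤ 9 ^ k := by exact_mod_cast hk
    have h9 : (0 : ℤ) < (2 * k + 3) ^ D * 8 ^ k := by positivity
    nlinarith
  have hF : Exch (SF lo4 hi4 n r \ C) := by
    apply exch_sdiff (SF_exch _ _ _ _)
    · intro X hX Y hY
      have h1 := SF_card hX
      have h2 := SF_card hY
      omega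
    · intro H hH b hb Y hY b' hb' hbH
      exact SF_free (hmem H hH).1 (hmem H hH).2.1 hb hbH ((mem_SF.1 hY).1 b' hb')
    · intro H hH b hb b' hb' hcon
      have hne : H ≠ insert b' (H.erase b) := fun h => hb' (h ▸ Finset.mem_insert_self _ _)
      have h1 := hCd H hH _ hcon hne
      have h2 := symmDiff_swap hb hb'
      omega
  have hI : ∀ S ∈ C, Inn lo4 hi4 n S := fun S hS => (hmem S hS).2.1
  -- counts for the tightened family
  have hcn : ∀ p q, (p, q) ≠ (true, false) →
      cn (SF lo4 hi4 n r \ C) 0 f p q = cn (SF lo4 hi4 n r) 0 f p q := by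
    intro p q hpq
    unfold cn
    congr 1
    ext S
    simp only [Finset.mem_filter, Finset.mem_sdiff]
    constructor
    · rintro ⟨⟨h1, h2⟩, h3⟩; exact ⟨h1, h3⟩
    · rintro ⟨h1, h3⟩
      refine ⟨⟨h1, fun h => ?_⟩, h3⟩
      have h4 := hmem S h
      apply hpq
      have hp : p = true := h3.1.1 h4.2.2.1
      have hq : q = false := by
        cases q
        · rfl
        · exact absurd (h3.2.2 rfl) h4.2.2.2
      rw [hp, hq]
  have hcn2 : (cn (SF lo4 hi4 n r \ C) 0 f true false : ℤ) + C.card =
      cn (SF lo4 hi4 n r) 0 f true false := by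
    unfold cn
    have : (SF lo4 hi4 n r).filter
        (fun S => (0 ∈ S ↔ true = true) ∧ (f ∈ S ↔ false = true)) =
        ((SF lo4 hi4 n r \ C).filter
          (fun S => (0 ∈ S ↔ true = true) ∧ (f ∈ S ↔ false = true))) ∪ C := by
      ext S
      simp only [Finset.mem_filter, Finset.mem_sdiff, Finset.mem_union]
      constructor
      · rintro ⟨h1, h2⟩
        by_cases h : S ∈ C
        · exact Or.inr h
        · exact Or.inl ⟨⟨h1, h⟩, h2⟩
      · rintro (⟨⟨h1, h2⟩, h3⟩ | h)
        · exact ⟨h1, h3⟩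
        · have h4 := hmem S h
          refine ⟨h4.1, ⟨fun _ => by simp, fun _ => h4.2.2.1⟩, ⟨fun h' => absurd h' h4.2.2.2,
            fun h' => by simp at h'⟩⟩
    rw [this, Finset.card_union_of_disjoint]
    · push_cast; ring
    · rw [Finset.disjoint_left]
      intro S hS
      simp only [Finset.mem_filter, Finset.mem_sdiff] at hS
      exact hS.1.2
  have hv : ∃ m : ℕ, ∃ φ : Fin m → ℕ, ∃ X : Finset ℕ, Emb n m (SF lo4 hi4 n r \ C) φ X ∧
      ¬ NCE Set.univ (fun B => im φ X B ∈ SF lo4 hi4 n r \ C) := by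
    have hemb : Emb n n (SF lo4 hi4 n r \ C) (fun i : Fin n => (i : ℕ)) ∅ := by
      refine ⟨fun i j h => Fin.ext h, fun i => i.2, by simp, by simp, ?_⟩
      have hpos : 0 < cn (SF lo4 hi4 n r \ C) 0 f false true := by
        rw [hcn false true (by simp)]
        have : (0 : ℤ) < cn (SF lo4 hi4 n r) 0 f false true := by rw [c3]; omega
        exact_mod_cast this
      unfold cn at hpos
      obtain ⟨S, hS⟩ := Finset.card_pos.1 hpos
      rw [Finset.mem_filter] at hS
      refine ⟨{i | (i : ℕ) ∈ S}, ?_⟩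
      have : im (fun i : Fin n => (i : ℕ)) ∅ {i | (i : ℕ) ∈ S} = S := by
        ext j
        rw [mem_im]
        constructor
        · rintro (⟨i, hi, rfl⟩ | h)
          · exact hi
          · simp at h
        · intro h
          have hj := (mem_SF.1 (Finset.mem_sdiff.1 hS.1).1).1 j h
          exact Or.inl ⟨⟨j, hj⟩, h, rfl⟩
      rw [this]; exact hS.1
    refine ⟨n, fun i : Fin n => (i : ℕ), ∅, hemb, ?_⟩
    intro hnc
    have h0n : 0 < n := by omega
    have hfn : f < n := by omega
    have key := hnc ⟨0, h0n⟩ (Set.mem_univ _) ⟨f, hfn⟩ (Set.mem_univ _)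
      (by intro h; have := congrArg Fin.val h; simp at this; omega)
    rw [nc_iff] at key
    have hq : ∀ p q, Nq (fun B => im (fun i : Fin n => (i : ℕ)) ∅ B ∈ SF lo4 hi4 n r \ C)
        ⟨0, h0n⟩ ⟨f, hfn⟩ p q = cn (SF lo4 hi4 n r \ C) 0 f p q := by
      intro p q
      unfold Nq cn
      rw [← Set.ncard_coe_finset, ← Set.ncard_image_of_injective _ (im_inj hemb)]
      congr 1
      ext S
      simp only [Set.mem_image, Set.mem_ofPred_eq, Finset.coe_filter]
      constructor
      · rintro ⟨B, ⟨h1, h3, h4⟩, rfl⟩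
        refine ⟨h1, ?_, ?_⟩
        · have := mem_im_iff hemb (B := B) (i := ⟨0, h0n⟩)
          simp only at this
          rw [this]; exact h3
        · have := mem_im_iff hemb (B := B) (i := ⟨f, hfn⟩)
          simp only at this
          rw [this]; exact h4
      · rintro ⟨h1, h3, h4⟩
        have him : im (fun i : Fin n => (i : ℕ)) ∅ {i | (i : ℕ) ∈ S} = S := by
          ext j
          rw [mem_im]
          constructor
          · rintro (⟨i, hi, rfl⟩ | h)
            · exact hi
            · simp at h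
          · intro h
            have hj := (mem_SF.1 (Finset.mem_sdiff.1 h1).1).1 j h
            exact Or.inl ⟨⟨j, hj⟩, h, rfl⟩
        exact ⟨{i | (i : ℕ) ∈ S}, ⟨by rw [him]; exact h1, h3, h4⟩, him⟩
    rw [hq, hq, hq, hq, hcn true true (by simp), hcn false false (by simp),
      hcn false true (by simp)] at key
    have key' : (cn (SF lo4 hi4 n r) 0 f true true : ℤ) * cn (SF lo4 hi4 n r) 0 f false false ≤
        cn (SF lo4 hi4 n r \ C) 0 f true false * cn (SF lo4 hi4 n r) 0 f false true := by
      exact_mod_cast key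
    rw [c1, c3, c4] at key'
    rw [c2] at hcn2
    have h1 : (cn (SF lo4 hi4 n r \ C) 0 f true false : ℤ) ≤ 2 * w1 - w2 - 1 := by omega
    have h2 : (cn (SF lo4 hi4 n r \ C) 0 f true false : ℤ) * w2 ≤ (2 * w1 - w2 - 1) * w2 :=
      mul_le_mul_of_nonneg_right h1 (by omega)
    nlinarith [sq_nonneg (w1 - w2)]
  obtain ⟨K, hK1, hK2⟩ := exists_excluded (D := D) hF hCd hI hv
  exact ⟨K, hD1.trans hK1, hK2⟩

end Pool.Agent.Helper442.Vec
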