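import Pool.Agent.Helper442.Nc

set_option autoImplicit false

namespace Pool.Agent.Helper442.Vec

/-- exchange for families of finite sets -/
def Exch (F : Finset (Finset ℕ)) : Prop :=
  ∀ X ∈ F, ∀ Y ∈ F, ∀ a ∈ X, a ∉ Y → ∃ b ∈ Y, b ∉ X ∧ insert b (X.erase a) ∈ F

theorem cnt_exch {X : Finset ℕ} {a b : ℕ} (ha : a ∈ X) (hb : b ∉ X) (i : ℕ) :
    cnt (insert b (X.erase a)) i =
      cnt X i + (if b < i then 1 else 0) - (if a < i then 1 else 0) := by
  classical
  have hab : a ≠ b := fun h => hb (h ▸ ha)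
  induction i with
  | zero => simp [cnt_zero]
  | succ i ih =>
    rw [cnt_succ, cnt_succ, ih]
    by_cases h1 : i = a
    · have h2 : i ≠ b := by omega
      have h3 : i ∉ insert b (X.erase a) := by simp [h1, hab]
      subst h1
      rw [if_neg h3, if_pos ha, if_neg (show ¬ i < i by omega), if_pos (show i < i + 1 by omega)]
      by_cases h4 : b < i
      · rw [if_pos h4, if_pos (show b < i + 1 by omega)]; ring
      · rw [if_neg h4, if_neg (show ¬ b < i + 1 by omega)]; ring
    · by_cases h2 : i = b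
      · subst h2
        rw [if_pos (Finset.mem_insert_self _ _), if_neg hb, if_neg (show ¬ i < i by omega),
          if_pos (show i < i + 1 by omega)]
        by_cases h4 : a < i
        · rw [if_pos h4, if_pos (show a < i + 1 by omega)]; ring
        · rw [if_neg h4, if_neg (show ¬ a < i + 1 by omega)]; ring
      · have h3 : i ∈ insert b (X.erase a) ↔ i ∈ X := by simp [h1, h2]
        have h5 : (if i ∈ insert b (X.erase a) then (1 : ℤ) else 0) = if i ∈ X then 1 else 0 := by
          by_cases h6 : i ∈ X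
          · rw [if_pos h6, if_pos (h3.2 h6)]
          · rw [if_neg h6, if_neg (fun h => h6 (h3.1 h))]
        rw [h5]
        have h7 : (if b < i + 1 then (1 : ℤ) else 0) = if b < i then 1 else 0 := by
          by_cases h4 : b < i
          · rw [if_pos h4, if_pos (show b < i + 1 by omega)]
          · rw [if_neg h4, if_neg (show ¬ b < i + 1 by omega)]
        have h8 : (if a < i + 1 then (1 : ℤ) else 0) = if a < i then 1 else 0 := by
          by_cases h4 : a < i
          · rw [if_pos h4, if_pos (show a < i + 1 by omega)]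
          · rw [if_neg h4, if_neg (show ¬ a < i + 1 by omega)]
        rw [h7, h8]; ring

/-- the strip family with all flags on -/
noncomputable def SF (lo hi : ℕ → ℤ) (n : ℕ) (r : ℤ) : Finset (Finset ℕ) :=
  Fam (fun _ => true) (fun _ => true) lo hi n r

theorem mem_SF {lo hi : ℕ → ℤ} {n : ℕ} {r : ℤ} {S : Finset ℕ} :
    S ∈ SF lo hi n r ↔ (∀ i ∈ S, i < n) ∧
      (∀ i < n, lo (i + 1) ≤ cnt S (i + 1) ∧ cnt S (i + 1) ≤ hi (i + 1)) ∧ cnt S n = r := by
  unfold SF
  rw [mem_Fam]
  unfold Ok
  simp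

theorem SF_exch_mem {lo hi : ℕ → ℤ} {n : ℕ} {r : ℤ} {X : Finset ℕ} {a b : ℕ}
    (hX : X ∈ SF lo hi n r) (ha : a ∈ X) (hb : b ∉ X) (hbn : b < n)
    (h1 : ∀ i < n, a ≤ i → i < b → lo (i + 1) + 1 ≤ cnt X (i + 1))
    (h2 : ∀ i < n, b ≤ i → i < a → cnt X (i + 1) + 1 ≤ hi (i + 1)) :
    insert b (X.erase a) ∈ SF lo hi n r := by
  classical
  rw [mem_SF] at hX ⊢
  obtain ⟨x1, x2, x3⟩ := hX
  have han := x1 a ha
  refine ⟨?_, ?_, ?_⟩
  · intro i hi
    rcases Finset.mem_insert.1 hi with h | h
    · omega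
    · exact x1 i (Finset.mem_of_mem_erase h)
  · intro i hi
    rw [cnt_exch ha hb]
    have y := x2 i hi
    have y1 := h1 i hi
    have y2 := h2 i hi
    by_cases c1 : b < i + 1 <;> by_cases c2 : a < i + 1
    · rw [if_pos c1, if_pos c2]; omega
    · rw [if_pos c1, if_neg c2]; have := y2 (by omega) (by omega); omega
    · rw [if_neg c1, if_pos c2]; have := y1 (by omega) (by omega); omega
    · rw [if_neg c1, if_neg c2]; omega
  · rw [cnt_exch ha hb, if_pos hbn, if_pos han]; omega

theorem SF_exch (lo hi : ℕ → ℤ) (n : ℕ) (r : ℤ) : Exch (SF lo hi n r) := by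
  classical
  intro X hX Y hY a haX haY
  have hX' := mem_SF.1 hX
  have hY' := mem_SF.1 hY
  have han := hX'.1 a haX
  have da : cnt X (a + 1) = cnt X a + 1 := cnt_succ_mem haX
  have db : cnt Y (a + 1) = cnt Y a := cnt_succ_notMem haY
  by_cases hc : cnt Y (a + 1) + 1 ≤ cnt X (a + 1)
  · have hex : ∃ j, a + 1 ≤ j ∧ cnt X j ≤ cnt Y j := ⟨n, by omega, by omega⟩
    obtain ⟨j, hj1, hj2, hj3⟩ : ∃ j, a + 1 ≤ j ∧ cnt X j ≤ cnt Y j ∧
        ∀ i, a + 1 ≤ i → i < j → cnt Y i + 1 ≤ cnt X i := by
      refine ⟨Nat.find hex, (Nat.find_spec hex).1, (Nat.find_spec hex).2, ?_⟩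
      intro i h1 h2
      have := Nat.find_min hex h2
      by_contra h3
      exact this ⟨h1, by omega⟩
    have hjn : j ≤ n := by
      by_contra h
      have := hj3 n (by omega) (by omega)
      omega
    have hja : a + 1 ≠ j := by
      intro h; rw [← h] at hj2; omega
    obtain ⟨b, rfl⟩ : ∃ b, j = b + 1 := ⟨j - 1, by omega⟩
    have hb := hj3 b (by omega) (by omega)
    have hbY : b ∈ Y := by
      by_contra h
      have h1 := cnt_succ_notMem h
      have h2 := cnt_succ X b
      split_ifs at h2 <;> omega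
    have hbX : b ∉ X := by
      intro h
      have h1 := cnt_succ_mem h
      have h2 := cnt_succ_mem hbY
      omega
    refine ⟨b, hbY, hbX, SF_exch_mem hX haX hbX (by omega) ?_ ?_⟩
    · intro i hi h1 h2
      have h3 := hj3 (i + 1) (by omega) (by omega)
      have h4 := (hY'.2.1 i hi).1
      omega
    · intro i hi h1 h2
      omega
  · have hca : cnt X a + 1 ≤ cnt Y a := by omega
    obtain ⟨b, hb1, hb2, hb3⟩ : ∃ b, b < a ∧ cnt Y b ≤ cnt X b ∧
        ∀ i, b < i → i ≤ a → cnt X i + 1 ≤ cnt Y i := by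
      have hex : ∃ k, k ≤ a ∧ cnt Y (a - k) ≤ cnt X (a - k) :=
        ⟨a, le_rfl, by simp [cnt_zero]⟩
      refine ⟨a - Nat.find hex, ?_, (Nat.find_spec hex).2, ?_⟩
      · have h1 := (Nat.find_spec hex).1
        have h2 : Nat.find hex ≠ 0 := by
          intro h
          have := (Nat.find_spec hex).2
          rw [h, Nat.sub_zero] at this
          omega
        omega
      · intro i h1 h2
        have h3 : a - i < Nat.find hex := by
          have := (Nat.find_spec hex).1
          omega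
        have h4 := Nat.find_min hex h3
        by_contra h5
        apply h4
        refine ⟨by omega, ?_⟩
        rw [show a - (a - i) = i by omega]
        omega
    have hb := hb3 (b + 1) (by omega) (by omega)
    have hbY : b ∈ Y := by
      by_contra h
      have h1 := cnt_succ_notMem h
      have h2 := cnt_succ X b
      split_ifs at h2 <;> omega
    have hbX : b ∉ X := by
      intro h
      have h1 := cnt_succ_mem h
      have h2 := cnt_succ_mem hbY
      omega
    refine ⟨b, hbY, hbX, SF_exch_mem hX haX hbX (by omega) ?_ ?_⟩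
    · intro i hi h1 h2
      omega
    · intro i hi h1 h2
      have h3 := hb3 (i + 1) (by omega) (by omega)
      have h4 := (hY'.2.1 i hi).2
      omega

theorem SF_free {lo hi : ℕ → ℤ} {n : ℕ} {r : ℤ} {X : Finset ℕ} {a b : ℕ}
    (hX : X ∈ SF lo hi n r) (hI : Inn lo hi n X) (ha : a ∈ X) (hb : b ∉ X) (hbn : b < n) :
    insert b (X.erase a) ∈ SF lo hi n r :=
  SF_exch_mem hX ha hb hbn (fun i hi _ _ => (hI i hi).1) (fun i hi _ _ => (hI i hi).2)

theorem SF_card {lo hi : ℕ → ℤ} {n : ℕ} {r : ℤ} {X : Finset ℕ} (hX : X ∈ SF lo hi n r) :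
    (X.card : ℤ) = r := by
  have h := mem_SF.1 hX
  rw [← cnt_card h.1]; exact h.2.2

/-- Tightening: removing pairwise non-adjacent free sets keeps the exchange property. -/
theorem exch_sdiff {F C : Finset (Finset ℕ)} (hF : Exch F)
    (hcard : ∀ X ∈ F, ∀ Y ∈ F, X.card = Y.card)
    (hfree : ∀ H ∈ C, ∀ b ∈ H, ∀ Y ∈ F, ∀ b' ∈ Y, b' ∉ H → insert b' (H.erase b) ∈ F)
    (hdist : ∀ H ∈ C, ∀ b ∈ H, ∀ b', b' ∉ H → insert b' (H.erase b) ∉ C) : Exch (F \ C) := by
  classical
  intro X hX Y hY a haX haY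
  rw [Finset.mem_sdiff] at hX hY
  obtain ⟨b, hbY, hbX, hH⟩ := hF X hX.1 Y hY.1 a haX haY
  by_cases hC : insert b (X.erase a) ∈ C
  · have hab : b ≠ a := fun h => hbX (h ▸ haX)
    by_cases hex : ∃ b' ∈ Y, b' ∉ X ∧ b' ≠ b
    · obtain ⟨b', h1, h2, h3⟩ := hex
      have hb' : b' ∉ insert b (X.erase a) := by simp [h2, h3]
      have hbm : b ∈ insert b (X.erase a) := Finset.mem_insert_self _ _
      have he : (insert b (X.erase a)).erase b = X.erase a := by
        rw [Finset.erase_insert]; simp [hbX]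
      have h4 := hfree _ hC b hbm Y hY.1 b' h1 hb'
      have h5 := hdist _ hC b hbm b' hb'
      rw [he] at h4 h5
      exact ⟨b', h1, h2, Finset.mem_sdiff.2 ⟨h4, h5⟩⟩
    · exfalso
      have hsub : Y ⊆ insert b (X.erase a) := by
        intro y hy
        by_cases hyb : y = b
        · simp [hyb]
        · have hyX : y ∈ X := by
            by_contra h; exact hex ⟨y, hy, h, hyb⟩
          have hya : y ≠ a := fun h => haY (h ▸ hy)
          simp [hyX, hya]
      have hcc : Y = insert b (X.erase a) :=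
        Finset.eq_of_subset_of_card_le hsub (le_of_eq (hcard _ hH _ hY.1))
      exact hY.2 (hcc ▸ hC)
  · exact ⟨b, hbY, hbX, Finset.mem_sdiff.2 ⟨hH, hC⟩⟩

end Pool.Agent.Helper442.Vec
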