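import Pool.Agent.Helper442.Mark

set_option autoImplicit false

namespace Pool.Agent.Helper442.Vec

/-- number of elements of `S` below `i` -/
def cnt (S : Finset ℕ) (i : ℕ) : ℤ := ((S.filter (fun j => j < i)).card : ℤ)

/-- membership conditions of the strip families -/
def Ok (u v : ℕ → Bool) (lo hi : ℕ → ℤ) (n : ℕ) (r : ℤ) (S : Finset ℕ) : Prop :=
  (∀ i ∈ S, i < n) ∧ (∀ i < n, (i ∈ S → u i = true) ∧ (i ∉ S → v i = true)) ∧
  (∀ i < n, lo (i + 1) ≤ cnt S (i + 1) ∧ cnt S (i + 1) ≤ hi (i + 1)) ∧ cnt S n = r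

open Classical in
/-- strip families -/
noncomputable def Fam (u v : ℕ → Bool) (lo hi : ℕ → ℤ) (n : ℕ) (r : ℤ) : Finset (Finset ℕ) :=
  (Finset.range n).powerset.filter (fun S => Ok u v lo hi n r S)

theorem mem_Fam {u v : ℕ → Bool} {lo hi : ℕ → ℤ} {n : ℕ} {r : ℤ} {S : Finset ℕ} :
    S ∈ Fam u v lo hi n r ↔ Ok u v lo hi n r S := by
  classical
  simp only [Fam, Finset.mem_filter, Finset.mem_powerset]
  constructor
  · exact fun h => h.2
  · exact fun h => ⟨fun i hi => Finset.mem_range.2 (h.1 i hi), h⟩

theorem cnt_succ_mem {S : Finset ℕ} {i : ℕ} (h : i ∈ S) : cnt S (i + 1) = cnt S i + 1 := by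
  classical
  unfold cnt
  have : S.filter (fun j => j < i + 1) = insert i (S.filter (fun j => j < i)) := by
    ext j; simp only [Finset.mem_filter, Finset.mem_insert]
    constructor
    · rintro ⟨h1, h2⟩
      rcases eq_or_ne j i with h3 | h3
      · exact Or.inl h3
      · exact Or.inr ⟨h1, by omega⟩
    · rintro (h1 | h1)
      · subst h1; exact ⟨h, by omega⟩
      · exact ⟨h1.1, by omega⟩
  rw [this, Finset.card_insert_of_notMem (by simp)]
  push_cast; ring

theorem cnt_succ_notMem {S : Finset ℕ} {i : ℕ} (h : i ∉ S) : cnt S (i + 1) = cnt S i := by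
  classical
  unfold cnt
  have : S.filter (fun j => j < i + 1) = S.filter (fun j => j < i) := by
    ext j; simp only [Finset.mem_filter]
    constructor
    · rintro ⟨h1, h2⟩
      have : j ≠ i := fun h3 => h (h3 ▸ h1)
      exact ⟨h1, by omega⟩
    · rintro ⟨h1, h2⟩
      exact ⟨h1, by omega⟩
  rw [this]

theorem cnt_zero (S : Finset ℕ) : cnt S 0 = 0 := by simp [cnt]

theorem cnt_succ (S : Finset ℕ) (i : ℕ) :
    cnt S (i + 1) = cnt S i + (if i ∈ S then 1 else 0) := by
  by_cases h : i ∈ S
  · rw [cnt_succ_mem h, if_pos h]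
  · rw [cnt_succ_notMem h, if_neg h, add_zero]

theorem cnt_congr {S S' : Finset ℕ} {i : ℕ} (h : ∀ j < i, j ∈ S ↔ j ∈ S') :
    cnt S i = cnt S' i := by
  unfold cnt
  congr 2
  ext j; simp only [Finset.mem_filter]
  constructor
  · rintro ⟨h1, h2⟩; exact ⟨(h j h2).1 h1, h2⟩
  · rintro ⟨h1, h2⟩; exact ⟨(h j h2).2 h1, h2⟩

theorem cnt_card {S : Finset ℕ} {n : ℕ} (h : ∀ i ∈ S, i < n) : cnt S n = S.card := by
  unfold cnt
  congr 2
  ext j; simp only [Finset.mem_filter]
  exact ⟨fun h => h.1, fun h' => ⟨h', h j h'⟩⟩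

theorem Ok_succ_out {u v : ℕ → Bool} {lo hi : ℕ → ℤ} {n : ℕ} {r : ℤ} {S : Finset ℕ}
    (h : n ∉ S) : Ok u v lo hi (n + 1) r S ↔
      (v n = true ∧ lo (n + 1) ≤ r ∧ r ≤ hi (n + 1)) ∧ Ok u v lo hi n r S := by
  have hc := cnt_succ_notMem h
  constructor
  · rintro ⟨h1, h2, h3, h4⟩
    have h5 := h3 n (by omega)
    rw [h4] at h5
    refine ⟨⟨(h2 n (by omega)).2 h, h5.1, h5.2⟩, ?_, fun i hi => h2 i (by omega),
      fun i hi => h3 i (by omega), by omega⟩
    intro i hi
    have := h1 i hi
    have : i ≠ n := fun h6 => h (h6 ▸ hi)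
    omega
  · rintro ⟨⟨h0, h0', h0''⟩, h1, h2, h3, h4⟩
    refine ⟨fun i hi => by have := h1 i hi; omega, ?_, ?_, by omega⟩
    · intro i hi
      rcases eq_or_ne i n with h5 | h5
      · subst h5; exact ⟨fun h6 => absurd h6 h, fun _ => h0⟩
      · exact h2 i (by omega)
    · intro i hi
      rcases eq_or_ne i n with h5 | h5
      · subst h5; rw [hc, h4]; exact ⟨h0', h0''⟩
      · exact h3 i (by omega)

theorem Ok_succ_in {u v : ℕ → Bool} {lo hi : ℕ → ℤ} {n : ℕ} {r : ℤ} {S : Finset ℕ}
    (h : n ∉ S) : Ok u v lo hi (n + 1) r (insert n S) ↔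
      (u n = true ∧ lo (n + 1) ≤ r ∧ r ≤ hi (n + 1)) ∧ Ok u v lo hi n (r - 1) S := by
  have hm : n ∈ insert n S := Finset.mem_insert_self n S
  have hc := cnt_succ_mem hm
  have hcc : ∀ i ≤ n, cnt (insert n S) i = cnt S i := by
    intro i hi
    apply cnt_congr
    intro j hj
    have : j ≠ n := by omega
    simp [this]
  constructor
  · rintro ⟨h1, h2, h3, h4⟩
    have h5 := h3 n (by omega)
    rw [h4] at h5
    refine ⟨⟨(h2 n (by omega)).1 hm, h5.1, h5.2⟩, ?_, ?_, ?_, ?_⟩
    · intro i hi
      have := h1 i (Finset.mem_insert_of_mem hi)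
      have : i ≠ n := fun h6 => h (h6 ▸ hi)
      omega
    · intro i hi
      have h6 := h2 i (by omega)
      have : i ≠ n := by omega
      simpa [this] using h6
    · intro i hi
      have h6 := h3 i (by omega)
      rw [hcc (i + 1) (by omega)] at h6; exact h6
    · rw [hcc n le_rfl] at hc; omega
  · rintro ⟨⟨h0, h0', h0''⟩, h1, h2, h3, h4⟩
    rw [hcc n le_rfl] at hc
    refine ⟨?_, ?_, ?_, by omega⟩
    · intro i hi
      rcases Finset.mem_insert.1 hi with h5 | h5
      · omega
      · have := h1 i h5; omega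
    · intro i hi
      rcases eq_or_ne i n with h5 | h5
      · subst h5; exact ⟨fun _ => h0, fun h6 => absurd hm h6⟩
      · have := h2 i (by omega)
        simpa [h5] using this
    · intro i hi
      rcases eq_or_ne i n with h5 | h5
      · subst h5; constructor <;> omega
      · rw [hcc (i + 1) (by omega)]
        exact h3 i (by omega)

theorem card_Fam (u v : ℕ → Bool) (lo hi : ℕ → ℤ) (n : ℕ) (r : ℤ) :
    ((Fam u v lo hi n r).card : ℤ) = vec u v lo hi n r := by
  classical
  induction n generalizing r with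
  | zero =>
    simp only [vec]
    have : Fam u v lo hi 0 r = if r = 0 then {∅} else ∅ := by
      ext S
      rw [mem_Fam]
      constructor
      · rintro ⟨h1, h2, h3, h4⟩
        have hS : S = ∅ := by
          apply Finset.eq_empty_of_forall_notMem
          intro i hi; have := h1 i hi; omega
        rw [cnt_zero] at h4
        rw [if_pos h4.symm, hS]; simp
      · intro h
        split_ifs at h with h0
        · rw [Finset.mem_singleton] at h
          subst h
          refine ⟨by simp, by omega, by omega, by rw [cnt_zero]; exact h0.symm⟩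
        · simp at h
    rw [this]
    split_ifs <;> simp
  | succ n ih =>
    have hsplit := Finset.card_filter_add_card_filter_not (s := Fam u v lo hi (n + 1) r)
      (fun S => n ∈ S)
    have h1 : ((Fam u v lo hi (n + 1) r).filter (fun S => n ∈ S)).card =
        if u n = true ∧ lo (n + 1) ≤ r ∧ r ≤ hi (n + 1) then (Fam u v lo hi n (r - 1)).card
          else 0 := by
      split_ifs with h
      · symm
        apply Finset.card_bij (fun S _ => insert n S)
        · intro S hS
          rw [mem_Fam] at hS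
          rw [Finset.mem_filter, mem_Fam]
          have hn : n ∉ S := fun h' => by have := hS.1 n h'; omega
          exact ⟨(Ok_succ_in hn).2 ⟨h, hS⟩, Finset.mem_insert_self _ _⟩
        · intro S hS S' hS' he
          rw [mem_Fam] at hS hS'
          have hn : n ∉ S := fun h' => by have := hS.1 n h'; omega
          have hn' : n ∉ S' := fun h' => by have := hS'.1 n h'; omega
          rw [← Finset.erase_insert hn, ← Finset.erase_insert hn', he]
        · intro S hS
          rw [Finset.mem_filter, mem_Fam] at hS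
          refine ⟨S.erase n, ?_, Finset.insert_erase hS.2⟩
          rw [mem_Fam]
          have := (Ok_succ_in (u := u) (v := v) (lo := lo) (hi := hi) (r := r)
            (Finset.notMem_erase n S)).1 (by rw [Finset.insert_erase hS.2]; exact hS.1)
          exact this.2
      · rw [Finset.card_eq_zero, Finset.filter_eq_empty_iff]
        intro S hS hn
        rw [mem_Fam] at hS
        apply h
        exact ((Ok_succ_in (u := u) (v := v) (lo := lo) (hi := hi) (r := r)
            (Finset.notMem_erase n S)).1 (by rw [Finset.insert_erase hn]; exact hS)).1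
    have h2 : ((Fam u v lo hi (n + 1) r).filter (fun S => ¬ n ∈ S)).card =
        if v n = true ∧ lo (n + 1) ≤ r ∧ r ≤ hi (n + 1) then (Fam u v lo hi n r).card
          else 0 := by
      split_ifs with h
      · congr 1
        ext S
        rw [Finset.mem_filter, mem_Fam, mem_Fam]
        constructor
        · rintro ⟨h3, h4⟩
          exact ((Ok_succ_out h4).1 h3).2
        · intro hS
          have hn : n ∉ S := fun h' => by have := hS.1 n h'; omega
          exact ⟨(Ok_succ_out hn).2 ⟨h, hS⟩, hn⟩
      · rw [Finset.card_eq_zero, Finset.filter_eq_empty_iff]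
        intro S hS hn
        rw [mem_Fam] at hS
        apply h
        exact ((Ok_succ_out hn).1 hS).1
    rw [← hsplit, h1, h2]
    simp only [vec, stp]
    rw [← ih r, ← ih (r - 1)]
    by_cases hb : lo (n + 1) ≤ r ∧ r ≤ hi (n + 1)
    · rw [if_pos hb]
      cases u n <;> cases v n <;> simp [hb.1, hb.2, add_comm]
    · rw [if_neg hb, if_neg (fun h => hb h.2), if_neg (fun h => hb h.2)]
      simp

end Pool.Agent.Helper442.Vec
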