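import Pool.Agent.Helper442.Seq

set_option autoImplicit false

namespace Pool.Agent.Helper442.Vec

/-- vector with the marked element `e` -/
def mvec (u v : ℕ → Bool) (lo hi : ℕ → ℤ) (e : ℕ) (p : Bool) : ℕ → ℤ → ℤ :=
  vec (mkU u e p) (mkV v e p) lo hi

theorem mvec_start (u v : ℕ → Bool) (lo hi : ℕ → ℤ) (e : ℕ) (p : Bool) :
    mvec u v lo hi e p (e + 1) =
      tr (lo (e + 1)) (hi (e + 1)) (if p = true then sh (vec u v lo hi e) else vec u v lo hi e) := by
  have h1 : vec (mkU u e p) (mkV v e p) lo hi e = vec u v lo hi e := by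
    apply vec_congr
    · intro j hj; simp [mkU, show j ≠ e by omega]
    · intro j hj; simp [mkV, show j ≠ e by omega]
  unfold mvec
  simp only [vec]
  rw [h1]
  cases p
  · simp [mkU, mkV, stp_ft]
  · simp [mkU, mkV, stp_tf]

theorem mvec_succ (u v : ℕ → Bool) (lo hi : ℕ → ℤ) (e : ℕ) (p : Bool) (i : ℕ) (hi' : e < i) :
    mvec u v lo hi e p (i + 1) =
      stp (u i) (v i) (lo (i + 1)) (hi (i + 1)) (mvec u v lo hi e p i) := by
  unfold mvec
  simp only [vec]
  simp [mkU, mkV, show i ≠ e by omega]

theorem Pr.stp {a1 a0 : ℤ → ℤ} (H : Pr a1 a0) (u v : Bool) (lo hi : ℤ) :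
    Pr (stp u v lo hi a1) (stp u v lo hi a0) := by
  cases u <;> cases v
  · rw [stp_ff, stp_ff]; exact ⟨fun _ => le_rfl, fun _ => le_rfl, fun _ _ _ => le_rfl⟩
  · rw [stp_ft, stp_ft]; exact H.tr _ _
  · rw [stp_tf, stp_tf]; exact H.sh.tr _ _
  · rw [stp_tt, stp_tt]; exact H.fr.tr _ _

theorem mvec_pr (u v : ℕ → Bool) (lo hi : ℕ → ℤ) (e : ℕ) (i : ℕ) (hei : e + 1 ≤ i) :
    Pr (mvec u v lo hi e true i) (mvec u v lo hi e false i) := by
  induction i, hei using Nat.le_induction with
  | base =>
    rw [mvec_start, mvec_start]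
    simp only [if_true, Bool.false_eq_true, if_false]
    exact (vec_lc u v lo hi e).pair.tr _ _
  | succ i hi' ih =>
    rw [mvec_succ _ _ _ _ _ _ _ (by omega), mvec_succ _ _ _ _ _ _ _ (by omega)]
    exact ih.stp _ _ _ _

theorem mvec_prH {u v : ℕ → Bool} {lo hi : ℕ → ℤ} {n : ℕ} {r : ℤ} {H : ℕ → Bool} {h : ℕ → ℤ}
    (P : Path u v lo hi n r H h) (e : ℕ) (he : H e = true) (i : ℕ) (hei : e + 1 ≤ i)
    (hin : i ≤ n) :
    PrH (mvec u v lo hi e true i) (mvec u v lo hi e false i) (h i) := by
  induction i, hei using Nat.le_induction with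
  | base =>
    rw [mvec_start, mvec_start]
    simp only [if_true, Bool.false_eq_true, if_false]
    have s := P.step e (by omega)
    rw [he] at s
    simp only [if_true] at s
    have l1 := P.hlo e (by omega)
    have l2 := P.hhi e (by omega)
    have g := (vec_good P e (by omega)).pair
    rw [← s] at g
    exact g.tr l1 l2
  | succ i hi' ih =>
    rw [mvec_succ _ _ _ _ _ _ _ (by omega), mvec_succ _ _ _ _ _ _ _ (by omega)]
    have g := ih (by omega)
    have s := P.step i (by omega)
    have l1 := P.hlo i (by omega)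
    have l2 := P.hhi i (by omega)
    have hu := P.hu i (by omega)
    have hv := P.hv i (by omega)
    cases hH : H i
    · rw [hH] at s
      simp only [Bool.false_eq_true, if_false, add_zero] at s
      have hv' := hv hH
      rw [s] at l1 l2 ⊢
      rw [hv']
      cases hu' : u i
      · rw [stp_ft, stp_ft]; exact g.tr l1 l2
      · rw [stp_tt, stp_tt]; exact g.fr0.tr l1 l2
    · rw [hH] at s
      simp only [if_true] at s
      have hu' := hu hH
      rw [s] at l1 l2 ⊢
      rw [hu']
      cases hv' : v i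
      · rw [stp_tf, stp_tf]; exact g.sh.tr l1 l2
      · rw [stp_tt, stp_tt]; exact g.fr1.tr l1 l2

/-- The number of sets with prescribed behaviour at `e` and `f`. -/
def T (u v : ℕ → Bool) (lo hi : ℕ → ℤ) (n : ℕ) (r : ℤ) (e f : ℕ) (p q : Bool) : ℤ :=
  vec (mkU (mkU u e p) f q) (mkV (mkV v e p) f q) lo hi n r

theorem T_eq (u v : ℕ → Bool) (lo hi : ℕ → ℤ) (n : ℕ) (r : ℤ) (hr : r ∈ Wn n) (e f : ℕ)
    (hef : e < f) (hf : f < n) (p q : Bool) :
    T u v lo hi n r e f p q = ∑ x ∈ Wn n, mvec u v lo hi e p f x *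
      (if q = true then tr (lo (f + 1)) (hi (f + 1)) (bk u v lo hi n r (n - (f + 1))) (x + 1)
        else tr (lo (f + 1)) (hi (f + 1)) (bk u v lo hi n r (n - (f + 1))) x) := by
  unfold T
  rw [vec_bk _ _ lo hi n r hr (n - f) (by omega)]
  refine Finset.sum_congr rfl fun x _ => ?_
  have e1 : n - (n - f) = f := by omega
  have e2 : n - f = (n - (f + 1)) + 1 := by omega
  have e3 : n - (n - (f + 1)) = f + 1 := by omega
  rw [e1]
  congr 1
  · have e6 : vec (mkU (mkU u e p) f q) (mkV (mkV v e p) f q) lo hi f =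
        vec (mkU u e p) (mkV v e p) lo hi f := by
      apply vec_congr
      · intro j hj
        have : j ≠ f := by omega
        simp [mkU, this]
      · intro j hj
        have : j ≠ f := by omega
        simp [mkV, this]
    rw [e6]
    rfl
  · rw [e2]
    simp only [bk]
    rw [e3]
    have e4 : f + 1 - 1 = f := by omega
    rw [e4]
    have e5 : bk (mkU (mkU u e p) f q) (mkV (mkV v e p) f q) lo hi n r (n - (f + 1)) =
        bk u v lo hi n r (n - (f + 1)) := by
      apply bk_congr _ _ _ _ _ (by omega)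
      · intro j hj
        have h1 : j ≠ f := by omega
        have h2 : j ≠ e := by omega
        simp [mkU, h1, h2]
      · intro j hj
        have h1 : j ≠ f := by omega
        have h2 : j ≠ e := by omega
        simp [mkV, h1, h2]
    rw [e5]
    cases q
    · simp [mkU, mkV, bstp_ft]
    · simp [mkU, mkV, bstp_tf]

theorem mark_nc (u v : ℕ → Bool) (lo hi : ℕ → ℤ) (n : ℕ) (r : ℤ) (hr : r ∈ Wn n) (e f : ℕ)
    (hef : e < f) (hf : f < n) :
    T u v lo hi n r e f true true * T u v lo hi n r e f false false ≤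
    T u v lo hi n r e f true false * T u v lo hi n r e f false true := by
  simp only [T_eq u v lo hi n r hr e f hef hf, if_true, Bool.false_eq_true, if_false]
  exact (mvec_pr u v lo hi e f (by omega)).final ((bk_lc u v lo hi n r _).tr _ _) (Wn n)

theorem mark_H {u v : ℕ → Bool} {lo hi : ℕ → ℤ} {n : ℕ} {r : ℤ} {H : ℕ → Bool} {h : ℕ → ℤ}
    (P : Path u v lo hi n r H h) (hr : r ∈ Wn n) (e f : ℕ)
    (hef : e < f) (hf : f < n) (he : H e = true) (hfH : H f = false) (hw1 : 0 ≤ h f)
    (hw2 : h f ≤ n) :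
    T u v lo hi n r e f true true * T u v lo hi n r e f false false +
      T u v lo hi n r e f false true ≤
    T u v lo hi n r e f true false * T u v lo hi n r e f false true := by
  simp only [T_eq u v lo hi n r hr e f hef hf, if_true, Bool.false_eq_true, if_false]
  have s := P.step f hf
  rw [hfH] at s
  simp only [Bool.false_eq_true, if_false, add_zero] at s
  have g := bk_good P (n - (f + 1)) (by omega)
  have e3 : n - (n - (f + 1)) = f + 1 := by omega
  rw [e3, s] at g
  have l1 := P.hlo f hf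
  have l2 := P.hhi f hf
  rw [s] at l1 l2
  have g' := g.tr (lo := lo (f + 1)) (hi := hi (f + 1)) (by omega) (by omega)
  have pr := mvec_prH P e he f (by omega) (by omega)
  exact pr.final g' (Wn n) (by simp only [Wn, Finset.mem_Icc]; omega)
    (by simp only [Wn, Finset.mem_Icc]; omega) (by simp only [Wn, Finset.mem_Icc]; omega)

end Pool.Agent.Helper442.Vec
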