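import Mathlib

set_option autoImplicit false

namespace Pool.Agent.Helper442.Vec

open Matroid Set

theorem basis_union {α : Type*} [Finite α] {M : Matroid α} {B B0 X Y : Set α}
    (hB0 : M.IsBasis B0 Y) (hX : M.IsBase (B0 ∪ X)) (hdX : Disjoint X Y)
    (hB : M.IsBasis B Y) : M.IsBase (B ∪ X) := by
  have hcl : M.closure (B ∪ X) = M.closure (B0 ∪ X) := by
    apply M.closure_union_congr_left
    rw [hB.closure_eq_closure, hB0.closure_eq_closure]
  have hsp : M.Spanning (B ∪ X) := by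
    rw [spanning_iff]
    refine ⟨?_, ?_⟩
    · rw [hcl]; exact hX.closure_eq
    · exact union_subset hB.indep.subset_ground (subset_union_right.trans hX.subset_ground)
  obtain ⟨B', hB', hs⟩ := hsp.exists_isBase_subset
  have h1 : B'.ncard = (B0 ∪ X).ncard := hB'.ncard_eq_ncard_of_isBase hX
  have h2 : (B0 ∪ X).ncard = B0.ncard + X.ncard :=
    Set.ncard_union_eq (hdX.symm.mono_left hB0.subset) (toFinite _) (toFinite _)
  have h3 : B.ncard = B0.ncard := by
    have a1 := isBase_restrict_iff'.2 hB.isBasis'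
    have a2 := isBase_restrict_iff'.2 hB0.isBasis'
    exact a1.ncard_eq_ncard_of_isBase a2
  have h4 : (B ∪ X).ncard ≤ B.ncard + X.ncard := Set.ncard_union_le _ _
  have h5 : B' = B ∪ X := Set.eq_of_subset_of_ncard_le hs (by omega) (toFinite _)
  rw [← h5]; exact hB'

theorem delete_bases {α : Type*} [Finite α] (M : Matroid α) (D : Set α) :
    ∃ X : Set α, X ⊆ M.E ∩ D ∧
      ∀ B, (M ＼ D).IsBase B ↔ B ⊆ M.E \ D ∧ M.IsBase (B ∪ X) := by
  obtain ⟨B0, hB0⟩ := M.exists_isBasis (M.E \ D) sdiff_subset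
  obtain ⟨B1, hB1, hB01⟩ := hB0.exists_isBase
  have hu : B0 ∪ (B1 \ (M.E \ D)) = B1 := by
    rw [hB01]; exact Set.inter_union_sdiff _ _
  have hX : M.IsBase (B0 ∪ (B1 \ (M.E \ D))) := by rw [hu]; exact hB1
  refine ⟨B1 \ (M.E \ D), ?_, ?_⟩
  · intro x hx
    have h1 := hB1.subset_ground hx.1
    refine ⟨h1, ?_⟩
    by_contra h2
    exact hx.2 ⟨h1, h2⟩
  · intro B
    rw [delete_isBase_iff]
    constructor
    · intro h
      exact ⟨h.subset, basis_union hB0 hX disjoint_sdiff_left h⟩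
    · rintro ⟨h1, h2⟩
      obtain ⟨B', hB', hs⟩ := (h2.indep.subset subset_union_left).subset_isBasis_of_subset h1
      have h3 := basis_union hB0 hX disjoint_sdiff_left hB'
      have h4 : B ∪ (B1 \ (M.E \ D)) = B' ∪ (B1 \ (M.E \ D)) :=
        h2.eq_of_subset_isBase h3 (union_subset_union_left _ hs)
      have h5 : B = B' := by
        apply Set.Subset.antisymm hs
        intro x hx
        have h6 : x ∈ B ∪ (B1 \ (M.E \ D)) := by rw [h4]; exact Or.inl hx
        rcases h6 with h6 | h6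
        · exact h6
        · exact absurd (hB'.subset hx) h6.2
      rw [h5]; exact hB'

theorem contract_bases {α : Type*} [Finite α] (M : Matroid α) (C : Set α) :
    ∃ X : Set α, X ⊆ M.E ∩ C ∧
      ∀ B, (M ／ C).IsBase B ↔ B ⊆ M.E \ C ∧ M.IsBase (B ∪ X) := by
  obtain ⟨X, hX, h⟩ := delete_bases M✶ C
  refine ⟨(M.E ∩ C) \ X, sdiff_subset, ?_⟩
  intro B
  rw [← dual_delete_dual, dual_isBase_iff', h, dual_isBase_iff']
  simp only [delete_ground, dual_ground]
  have hX' : X ⊆ M.E ∩ C := hX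
  constructor
  · rintro ⟨⟨h1, h2, h3⟩, h4⟩
    refine ⟨h4, ?_⟩
    convert h2 using 1
    ext x
    constructor
    · rintro (hx | hx)
      · have := h4 hx
        refine ⟨this.1, ?_⟩
        rintro (h5 | h5)
        · exact h5.2 hx
        · exact this.2 (hX' h5).2
      · refine ⟨hx.1.1, ?_⟩
        rintro (h5 | h5)
        · exact h5.1.2 hx.1.2
        · exact hx.2 h5
    · rintro ⟨h5, h6⟩
      by_cases h7 : x ∈ C
      · exact Or.inr ⟨⟨h5, h7⟩, fun h8 => h6 (Or.inr h8)⟩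
      · left; by_contra h8; exact h6 (Or.inl ⟨⟨h5, h7⟩, h8⟩)
  · rintro ⟨h1, h2⟩
    refine ⟨⟨sdiff_subset, ?_, ?_⟩, h1⟩
    · convert h2 using 1
      ext x
      constructor
      · rintro ⟨h5, h6⟩
        by_cases h7 : x ∈ C
        · exact Or.inr ⟨⟨h5, h7⟩, fun h8 => h6 (Or.inr h8)⟩
        · left; by_contra h8; exact h6 (Or.inl ⟨⟨h5, h7⟩, h8⟩)
      · rintro (hx | hx)
        · have := h1 hx
          refine ⟨this.1, ?_⟩
          rintro (h5 | h5)
          · exact h5.2 hx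
          · exact this.2 (hX' h5).2
        · refine ⟨hx.1.1, ?_⟩
          rintro (h5 | h5)
          · exact h5.1.2 hx.1.2
          · exact hx.2 h5
    · exact union_subset (sdiff_subset.trans sdiff_subset) (fun x hx => (hX' hx).1)

theorem minor_bases {α : Type*} [Finite α] {M N : Matroid α} (h : N.IsMinor M) :
    ∃ X : Set α, Disjoint X N.E ∧ ∀ B, N.IsBase B ↔ B ⊆ N.E ∧ M.IsBase (B ∪ X) := by
  obtain ⟨C, D, rfl⟩ := h
  obtain ⟨X1, hX1, h1⟩ := contract_bases M C
  obtain ⟨X2, hX2, h2⟩ := delete_bases (M ／ C) D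
  refine ⟨X2 ∪ X1, ?_, ?_⟩
  · rw [Set.disjoint_left]
    rintro x (hx | hx) ⟨h3, h4⟩
    · exact h4 (hX2 hx).2
    · exact h3.2 (hX1 hx).2
  · intro B
    rw [h2, h1]
    simp only [delete_ground, contract_ground]
    constructor
    · rintro ⟨h3, h4, h5⟩
      exact ⟨h3, by rw [← Set.union_assoc]; exact h5⟩
    · rintro ⟨h3, h4⟩
      refine ⟨h3, union_subset (h3.trans sdiff_subset) (fun x hx => (hX2 hx).1), ?_⟩
      rw [Set.union_assoc]; exact h4

end Pool.Agent.Helper442.Vec
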