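import Pool.Agent.Helper442.Fam

set_option autoImplicit false

namespace Pool.Agent.Helper442.Vec

theorem vec_compl (u v : ℕ → Bool) (lo hi : ℕ → ℤ) (i : ℕ) (x : ℤ) :
    vec v u (fun j => (j : ℤ) - hi j) (fun j => (j : ℤ) - lo j) i ((i : ℤ) - x) =
      vec u v lo hi i x := by
  induction i generalizing x with
  | zero =>
    simp only [vec]
    by_cases h : x = 0
    · rw [if_pos (by simp [h]), if_pos h]
    · rw [if_neg (by simpa using h), if_neg h]
  | succ i ih =>
    simp only [vec, stp]
    have h1 := ih x
    have h2 := ih (x - 1)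
    rw [show ((i + 1 : ℕ) : ℤ) - x - 1 = (i : ℤ) - x by push_cast; ring,
      show ((i + 1 : ℕ) : ℤ) - x = (i : ℤ) - (x - 1) by push_cast; ring, h1, h2]
    by_cases hb : lo (i + 1) ≤ x ∧ x ≤ hi (i + 1)
    · rw [if_pos hb, if_pos (by push_cast; omega)]
      ring
    · rw [if_neg hb, if_neg (by push_cast; omega)]

theorem T_compl (u v : ℕ → Bool) (lo hi : ℕ → ℤ) (n : ℕ) (r : ℤ) (e f : ℕ) (p q : Bool) :
    T v u (fun j => (j : ℤ) - hi j) (fun j => (j : ℤ) - lo j) n ((n : ℤ) - r) e f (!p) (!q) =
      T u v lo hi n r e f p q := by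
  unfold T
  rw [← vec_compl (mkU (mkU u e p) f q) (mkV (mkV v e p) f q) lo hi n r]
  congr 1
  · funext i; simp [mkU, mkV]

theorem mark_H' {u v : ℕ → Bool} {lo hi : ℕ → ℤ} {n : ℕ} {r : ℤ} {H : ℕ → Bool} {h : ℕ → ℤ}
    (P : Path u v lo hi n r H h) (hr : r ∈ Wn n) (hr1 : 0 ≤ r) (hr2 : r ≤ n) (e f : ℕ)
    (hef : e < f) (hf : f < n) (he : H e = false) (hfH : H f = true) (hw1 : 0 ≤ h f)
    (hw2 : h f ≤ f) :
    T u v lo hi n r e f true true * T u v lo hi n r e f false false +
      T u v lo hi n r e f true false ≤
    T u v lo hi n r e f true false * T u v lo hi n r e f false true := by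
  have P' : Path v u (fun j => (j : ℤ) - hi j) (fun j => (j : ℤ) - lo j) n ((n : ℤ) - r)
      (fun i => !H i) (fun i => (i : ℤ) - h i) := by
    refine ⟨?_, ?_, ?_, ?_, ?_, ?_, ?_⟩
    · show ((0 : ℕ) : ℤ) - h 0 = 0
      rw [P.zero]; simp
    · show (n : ℤ) - h n = n - r
      rw [P.last]
    · intro i hi
      show ((i + 1 : ℕ) : ℤ) - h (i + 1) = (i : ℤ) - h i + _
      rw [P.step i hi]
      cases H i <;> simp <;> ring
    · intro i hi h1
      exact P.hv i hi (by simpa using h1)
    · intro i hi h1
      exact P.hu i hi (by simpa using h1)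
    · intro i hi'
      have := P.hhi i hi'
      show ((i + 1 : ℕ) : ℤ) - hi (i + 1) + 1 ≤ ((i + 1 : ℕ) : ℤ) - h (i + 1)
      omega
    · intro i hi'
      have := P.hlo i hi'
      show ((i + 1 : ℕ) : ℤ) - h (i + 1) + 1 ≤ ((i + 1 : ℕ) : ℤ) - lo (i + 1)
      omega
  have key := mark_H P' (by simp only [Wn, Finset.mem_Icc]; omega) e f hef hf (by simp [he])
    (by simp [hfH]) (by show 0 ≤ (f : ℤ) - h f; omega) (by show (f : ℤ) - h f ≤ n; omega)
  have e1 := T_compl u v lo hi n r e f true true
  have e2 := T_compl u v lo hi n r e f true false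
  have e3 := T_compl u v lo hi n r e f false true
  have e4 := T_compl u v lo hi n r e f false false
  simp only [Bool.not_true, Bool.not_false] at e1 e2 e3 e4
  rw [e1, e2, e3, e4] at key
  linarith

open Classical in
/-- the four counts -/
noncomputable def cn (F : Finset (Finset ℕ)) (e f : ℕ) (p q : Bool) : ℕ :=
  (F.filter (fun S => (e ∈ S ↔ p = true) ∧ (f ∈ S ↔ q = true))).card

theorem cn_swap (F : Finset (Finset ℕ)) (e f : ℕ) (p q : Bool) : cn F e f p q = cn F f e q p := by
  classical
  unfold cn
  congr 1
  ext S; simp only [Finset.mem_filter]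
  tauto

theorem cn_T {u v : ℕ → Bool} {lo hi : ℕ → ℤ} {n : ℕ} {r : ℤ} {e f : ℕ} (hef : e ≠ f)
    (he : e < n) (hf : f < n) (ue : u e = true) (ve : v e = true) (uf : u f = true)
    (vf : v f = true) (p q : Bool) :
    (cn (Fam u v lo hi n r) e f p q : ℤ) = T u v lo hi n r e f p q := by
  classical
  unfold T cn
  rw [← card_Fam]
  congr 2
  ext S
  rw [Finset.mem_filter, mem_Fam, mem_Fam]
  have key : ((∀ i < n, (i ∈ S → u i = true) ∧ (i ∉ S → v i = true)) ∧
      (e ∈ S ↔ p = true) ∧ (f ∈ S ↔ q = true)) ↔
      (∀ i < n, (i ∈ S → mkU (mkU u e p) f q i = true) ∧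
        (i ∉ S → mkV (mkV v e p) f q i = true)) := by
    constructor
    · rintro ⟨h1, h2, h3⟩ i hi
      by_cases hif : i = f
      · subst hif
        simp only [mkU, mkV, if_true]
        exact ⟨fun h => h3.1 h, fun h => by
          cases hq : q
          · rfl
          · exact absurd (h3.2 hq) h⟩
      · by_cases hie : i = e
        · subst hie
          simp only [mkU, mkV, if_true, if_neg hif]
          exact ⟨fun h => h2.1 h, fun h => by
            cases hq : p
            · rfl
            · exact absurd (h2.2 hq) h⟩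
        · simp only [mkU, mkV, if_neg hif, if_neg hie]
          exact h1 i hi
    · intro h
      have h2 := h e he
      have h3 := h f hf
      simp only [mkU, mkV, if_true, if_neg hef] at h2 h3
      refine ⟨?_, ⟨fun h4 => h2.1 h4, fun h4 => ?_⟩, ⟨fun h4 => h3.1 h4, fun h4 => ?_⟩⟩
      · intro i hi
        by_cases hif : i = f
        · subst hif; exact ⟨fun _ => uf, fun _ => vf⟩
        · by_cases hie : i = e
          · subst hie; exact ⟨fun _ => ue, fun _ => ve⟩
          · have := h i hi
            simp only [mkU, mkV, if_neg hif, if_neg hie] at this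
            exact this
      · by_contra h5
        have := h2.2 h5
        rw [h4] at this; simp at this
      · by_contra h5
        have := h3.2 h5
        rw [h4] at this; simp at this
  unfold Ok
  rw [← key]
  tauto

/-- interior sets -/
def Inn (lo hi : ℕ → ℤ) (n : ℕ) (S : Finset ℕ) : Prop :=
  ∀ i < n, lo (i + 1) + 1 ≤ cnt S (i + 1) ∧ cnt S (i + 1) + 1 ≤ hi (i + 1)

theorem cnt_nonneg (S : Finset ℕ) (i : ℕ) : 0 ≤ cnt S i := by unfold cnt; positivity

theorem cnt_le (S : Finset ℕ) (i : ℕ) : cnt S i ≤ i := by
  unfold cnt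
  have : (S.filter (fun j => j < i)) ⊆ Finset.range i := by
    intro j hj; simp only [Finset.mem_filter] at hj; exact Finset.mem_range.2 hj.2
  have := Finset.card_le_card this
  rw [Finset.card_range] at this
  exact_mod_cast this

theorem path_of {u v : ℕ → Bool} {lo hi : ℕ → ℤ} {n : ℕ} {r : ℤ} {S : Finset ℕ}
    (h : Ok u v lo hi n r S) (hI : Inn lo hi n S) :
    Path u v lo hi n r (fun i => decide (i ∈ S)) (cnt S) := by
  refine ⟨cnt_zero S, h.2.2.2, ?_, ?_, ?_, fun i hi => (hI i hi).1, fun i hi => (hI i hi).2⟩
  · intro i _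
    rw [cnt_succ]; simp
  · intro i hi h1
    exact (h.2.1 i hi).1 (by simpa using h1)
  · intro i hi h1
    exact (h.2.1 i hi).2 (by simpa using h1)

theorem fam_nc0 {u v : ℕ → Bool} {lo hi : ℕ → ℤ} {n : ℕ} {r : ℤ} {e f : ℕ} (hef : e < f)
    (hf : f < n) (ue : u e = true) (ve : v e = true) (uf : u f = true)
    (vf : v f = true) :
    cn (Fam u v lo hi n r) e f true true * cn (Fam u v lo hi n r) e f false false ≤
    cn (Fam u v lo hi n r) e f true false * cn (Fam u v lo hi n r) e f false true := by
  classical
  rcases (Fam u v lo hi n r).eq_empty_or_nonempty with h | ⟨S, hS⟩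
  · rw [h]; simp [cn]
  · rw [mem_Fam] at hS
    have h1 := cnt_nonneg S n
    have h2 := cnt_le S n
    rw [hS.2.2.2] at h1 h2
    have := mark_nc u v lo hi n r (by simp only [Wn, Finset.mem_Icc]; omega) e f hef hf
    simp only [← cn_T (u := u) (v := v) (lo := lo) (hi := hi) (n := n) (r := r)
      (show e ≠ f by omega) (by omega) hf ue ve uf vf] at this
    exact_mod_cast this

theorem cn_erase_of (F : Finset (Finset ℕ)) (e f : ℕ) (p q : Bool) (S : Finset ℕ) (hS : S ∈ F)
    (h : (e ∈ S ↔ p = true) ∧ (f ∈ S ↔ q = true)) :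
    cn (F.erase S) e f p q + 1 = cn F e f p q := by
  classical
  unfold cn
  rw [Finset.filter_erase]
  exact Finset.card_erase_add_one (Finset.mem_filter.2 ⟨hS, h⟩)

theorem cn_erase_not (F : Finset (Finset ℕ)) (e f : ℕ) (p q : Bool) (S : Finset ℕ)
    (h : ¬ ((e ∈ S ↔ p = true) ∧ (f ∈ S ↔ q = true))) :
    cn (F.erase S) e f p q = cn F e f p q := by
  classical
  unfold cn
  rw [Finset.filter_erase, Finset.erase_eq_of_notMem]
  intro h'; exact h (Finset.mem_filter.1 h').2

theorem fam_nc1 {u v : ℕ → Bool} {lo hi : ℕ → ℤ} {n : ℕ} {r : ℤ} {e f : ℕ} (hef : e < f)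
    (hf : f < n) (ue : u e = true) (ve : v e = true) (uf : u f = true)
    (vf : v f = true) (S : Finset ℕ) (hS : S ∈ Fam u v lo hi n r) (hI : Inn lo hi n S) :
    cn ((Fam u v lo hi n r).erase S) e f true true *
      cn ((Fam u v lo hi n r).erase S) e f false false ≤
    cn ((Fam u v lo hi n r).erase S) e f true false *
      cn ((Fam u v lo hi n r).erase S) e f false true := by
  classical
  have h0 := fam_nc0 (lo := lo) (hi := hi) (r := r) hef hf ue ve uf vf
  have hS' := mem_Fam.1 hS
  have h1 := cnt_nonneg S n
  have h2 := cnt_le S n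
  rw [hS'.2.2.2] at h1 h2
  have hw : r ∈ Wn n := by simp only [Wn, Finset.mem_Icc]; omega
  have P := path_of hS' hI
  have c1 := cnt_nonneg S f
  have c2 := cnt_le S f
  by_cases he : e ∈ S <;> by_cases hf' : f ∈ S
  · have a1 := cn_erase_of _ e f true true S hS (by simp [he, hf'])
    have a2 := cn_erase_not (Fam u v lo hi n r) e f true false S (by simp [he, hf'])
    have a3 := cn_erase_not (Fam u v lo hi n r) e f false true S (by simp [he, hf'])
    have a4 := cn_erase_not (Fam u v lo hi n r) e f false false S (by simp [he, hf'])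
    rw [a2, a3, a4]
    rw [← a1] at h0
    nlinarith
  · have a1 := cn_erase_not (Fam u v lo hi n r) e f true true S (by simp [he, hf'])
    have a2 := cn_erase_of _ e f true false S hS (by simp [he, hf'])
    have a3 := cn_erase_not (Fam u v lo hi n r) e f false true S (by simp [he, hf'])
    have a4 := cn_erase_not (Fam u v lo hi n r) e f false false S (by simp [he, hf'])
    rw [a1, a3, a4]
    have key := mark_H P hw e f hef hf (by simpa using he) (by simpa using hf') c1 (by omega)
    simp only [← cn_T (u := u) (v := v) (lo := lo) (hi := hi) (n := n) (r := r)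
      (show e ≠ f by omega) (by omega) hf ue ve uf vf] at key
    have key' : cn (Fam u v lo hi n r) e f true true * cn (Fam u v lo hi n r) e f false false +
        cn (Fam u v lo hi n r) e f false true ≤
      cn (Fam u v lo hi n r) e f true false * cn (Fam u v lo hi n r) e f false true := by
      exact_mod_cast key
    rw [← a2] at key'
    nlinarith
  · have a1 := cn_erase_not (Fam u v lo hi n r) e f true true S (by simp [he, hf'])
    have a2 := cn_erase_not (Fam u v lo hi n r) e f true false S (by simp [he, hf'])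
    have a3 := cn_erase_of _ e f false true S hS (by simp [he, hf'])
    have a4 := cn_erase_not (Fam u v lo hi n r) e f false false S (by simp [he, hf'])
    rw [a1, a2, a4]
    have key := mark_H' P hw h1 h2 e f hef hf (by simpa using he) (by simpa using hf') c1 c2
    simp only [← cn_T (u := u) (v := v) (lo := lo) (hi := hi) (n := n) (r := r)
      (show e ≠ f by omega) (by omega) hf ue ve uf vf] at key
    have key' : cn (Fam u v lo hi n r) e f true true * cn (Fam u v lo hi n r) e f false false +
        cn (Fam u v lo hi n r) e f true false ≤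
      cn (Fam u v lo hi n r) e f true false * cn (Fam u v lo hi n r) e f false true := by
      exact_mod_cast key
    rw [← a3] at key'
    nlinarith
  · have a1 := cn_erase_not (Fam u v lo hi n r) e f true true S (by simp [he, hf'])
    have a2 := cn_erase_not (Fam u v lo hi n r) e f true false S (by simp [he, hf'])
    have a3 := cn_erase_not (Fam u v lo hi n r) e f false true S (by simp [he, hf'])
    have a4 := cn_erase_of _ e f false false S hS (by simp [he, hf'])
    rw [a1, a2, a3]
    rw [← a4] at h0
    nlinarith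

/-- Main inequality: a strip family minus at most one interior set is negatively correlated. -/
theorem fam_nc {u v : ℕ → Bool} {lo hi : ℕ → ℤ} {n : ℕ} {r : ℤ} {e f : ℕ} (hef : e ≠ f)
    (he : e < n) (hf : f < n) (ue : u e = true) (ve : v e = true) (uf : u f = true)
    (vf : v f = true) (C : Finset (Finset ℕ)) (hC : ∀ S ∈ C, ∀ S' ∈ C,
      S ∈ Fam u v lo hi n r → S' ∈ Fam u v lo hi n r → S = S') (hI : ∀ S ∈ C, Inn lo hi n S) :
    cn (Fam u v lo hi n r \ C) e f true true * cn (Fam u v lo hi n r \ C) e f false false ≤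
    cn (Fam u v lo hi n r \ C) e f true false * cn (Fam u v lo hi n r \ C) e f false true := by
  classical
  have main : ∀ e f : ℕ, e < f → e < n → f < n → u e = true → v e = true → u f = true →
      v f = true → cn (Fam u v lo hi n r \ C) e f true true *
        cn (Fam u v lo hi n r \ C) e f false false ≤
      cn (Fam u v lo hi n r \ C) e f true false * cn (Fam u v lo hi n r \ C) e f false true := by
    intro e f hef he hf ue ve uf vf
    by_cases hex : ∃ S ∈ C, S ∈ Fam u v lo hi n r
    · obtain ⟨S, hS, hSF⟩ := hex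
      have : Fam u v lo hi n r \ C = (Fam u v lo hi n r).erase S := by
        ext S'
        simp only [Finset.mem_sdiff, Finset.mem_erase]
        constructor
        · rintro ⟨h1, h2⟩
          exact ⟨fun h3 => h2 (h3 ▸ hS), h1⟩
        · rintro ⟨h1, h2⟩
          exact ⟨h2, fun h3 => h1 (hC S' h3 S hS h2 hSF)⟩
      rw [this]
      exact fam_nc1 hef hf ue ve uf vf S hSF (hI S hS)
    · have : Fam u v lo hi n r \ C = Fam u v lo hi n r := by
        apply Finset.sdiff_eq_self_of_disjoint
        rw [Finset.disjoint_left]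
        intro S h1 h2
        exact hex ⟨S, h2, h1⟩
      rw [this]
      exact fam_nc0 hef hf ue ve uf vf
  rcases lt_or_gt_of_ne hef with h | h
  · exact main e f h he hf ue ve uf vf
  · have := main f e h hf he uf vf ue ve
    rw [cn_swap _ e f true true, cn_swap _ e f false false, cn_swap _ e f true false,
      cn_swap _ e f false true, mul_comm (cn _ f e false true)]
    exact this

end Pool.Agent.Helper442.Vec
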