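import Pool.Agent.Helper442.Vec

set_option autoImplicit false

namespace Pool.Agent.Helper442.Vec

/-- `a1` dominates `a0` in the likelihood ratio order. -/
structure Pr (a1 a0 : ℤ → ℤ) : Prop where
  n1 : ∀ x, 0 ≤ a1 x
  n0 : ∀ x, 0 ≤ a0 x
  m0 : ∀ z y, z ≤ y → a1 z * a0 y ≤ a1 y * a0 z

/-- The same with an extra margin around `h`. -/
structure PrH (a1 a0 : ℤ → ℤ) (h : ℤ) : Prop where
  n1 : ∀ x, 0 ≤ a1 x
  n0 : ∀ x, 0 ≤ a0 x
  m0 : ∀ z y, z ≤ y → a1 z * a0 y ≤ a1 y * a0 z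
  m1 : ∀ s, s < h → a1 s * a0 h + a0 s ≤ a1 h * a0 s
  m2 : a1 (h - 1) * a0 (h + 1) + a0 h ≤ a1 (h + 1) * a0 (h - 1)
  m3 : ∀ s, h < s → a1 h * a0 s + a0 s ≤ a1 s * a0 h

theorem PrH.toPr {a1 a0 : ℤ → ℤ} {h : ℤ} (H : PrH a1 a0 h) : Pr a1 a0 := ⟨H.n1, H.n0, H.m0⟩

theorem fr_nn {A : ℤ → ℤ} (hA : ∀ x, 0 ≤ A x) (x : ℤ) : 0 ≤ fr A x :=
  add_nonneg (hA _) (hA _)

theorem tr_nn {A : ℤ → ℤ} (hA : ∀ x, 0 ≤ A x) (lo hi x : ℤ) : 0 ≤ tr lo hi A x := by
  unfold tr; split_ifs
  · exact hA x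
  · exact le_rfl

theorem Pr.fr {a1 a0 : ℤ → ℤ} (H : Pr a1 a0) : Pr (fr a1) (fr a0) := by
  refine ⟨fr_nn H.n1, fr_nn H.n0, fun z y hzy => ?_⟩
  rcases eq_or_lt_of_le hzy with c | c
  · subst c; exact le_of_eq (by ring)
  · have e1 := H.m0 z y hzy
    have e2 := H.m0 (z - 1) y (by omega)
    have e3 := H.m0 z (y - 1) (by omega)
    have e4 := H.m0 (z - 1) (y - 1) (by omega)
    simp only [Vec.fr]; nlinarith

theorem Pr.sh {a1 a0 : ℤ → ℤ} (H : Pr a1 a0) : Pr (sh a1) (sh a0) :=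
  ⟨fun _ => H.n1 _, fun _ => H.n0 _, fun z y hzy => H.m0 (z - 1) (y - 1) (by omega)⟩

theorem Pr.tr {a1 a0 : ℤ → ℤ} (H : Pr a1 a0) (lo hi : ℤ) : Pr (tr lo hi a1) (tr lo hi a0) := by
  refine ⟨tr_nn H.n1 lo hi, tr_nn H.n0 lo hi, fun z y hzy => ?_⟩
  have e1 := H.m0 z y hzy
  simp only [Vec.tr]
  by_cases c1 : lo ≤ z ∧ z ≤ hi
  · by_cases c2 : lo ≤ y ∧ y ≤ hi
    · rw [if_pos c1, if_pos c1, if_pos c2, if_pos c2]; exact e1
    · rw [if_neg c2, if_neg c2]; simp
  · rw [if_neg c1, if_neg c1]; simp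

theorem PrH.fr0 {a1 a0 : ℤ → ℤ} {h : ℤ} (H : PrH a1 a0 h) : PrH (fr a1) (fr a0) h := by
  refine ⟨H.toPr.fr.n1, H.toPr.fr.n0, H.toPr.fr.m0, fun s hs => ?_, ?_, fun s hs => ?_⟩
  · have e1 := H.m1 s hs
    have e2 := H.m1 (s - 1) (by omega)
    have e3 := H.m0 s (h - 1) (by omega)
    have e4 := H.m0 (s - 1) (h - 1) (by omega)
    simp only [Vec.fr]; nlinarith
  · have e1 := H.m2
    have e2 := H.m1 (h - 1) (by omega)
    have e3 := H.m0 (h - 1 - 1) (h + 1) (by omega)
    have e4 := H.m0 (h - 1 - 1) h (by omega)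
    simp only [Vec.fr]
    rw [show h + 1 - 1 = h by ring]
    nlinarith
  · have e1 := H.m3 s hs
    have e4 := H.m0 (h - 1) (s - 1) (by omega)
    simp only [Vec.fr]
    rcases eq_or_lt_of_le (show h + 1 ≤ s by omega) with c | c
    · subst c
      have e2 := H.m2
      have e5 := H.m1 (h - 1) (by omega)
      have e6 := H.n0 (h - 1)
      rw [show h + 1 - 1 = h by ring] at *
      nlinarith
    · have e2 := H.m3 (s - 1) (by omega)
      have e3 := H.m0 (h - 1) s (by omega)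
      nlinarith

theorem PrH.fr1 {a1 a0 : ℤ → ℤ} {h : ℤ} (H : PrH a1 a0 h) : PrH (fr a1) (fr a0) (h + 1) := by
  refine ⟨H.toPr.fr.n1, H.toPr.fr.n0, H.toPr.fr.m0, fun s hs => ?_, ?_, fun s hs => ?_⟩
  · simp only [Vec.fr]
    rw [show h + 1 - 1 = h by ring]
    rcases eq_or_lt_of_le (show s ≤ h by omega) with c | c
    · subst c
      have e1 := H.m2
      have e2 := H.m1 (s - 1) (by omega)
      have e3 := H.m0 s (s + 1) (by omega)
      nlinarith
    · have e1 := H.m1 s c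
      have e2 := H.m1 (s - 1) (by omega)
      have e3 := H.m0 s (h + 1) (by omega)
      have e4 := H.m0 (s - 1) (h + 1) (by omega)
      nlinarith
  · simp only [Vec.fr]
    rw [show h + 1 - 1 = h by ring, show h + 1 + 1 - 1 = h + 1 by ring,
      show h + 1 + 1 = h + 2 by ring]
    have e1 := H.m2
    have e2 := H.m3 (h + 1) (by omega)
    have e3 := H.m0 h (h + 2) (by omega)
    have e4 := H.m0 (h - 1) (h + 2) (by omega)
    nlinarith
  · simp only [Vec.fr]
    rw [show h + 1 - 1 = h by ring]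
    have e1 := H.m3 s (by omega)
    have e2 := H.m3 (s - 1) (by omega)
    have e3 := H.m0 (h + 1) s (by omega)
    have e4 := H.m0 (h + 1) (s - 1) (by omega)
    nlinarith

theorem PrH.sh {a1 a0 : ℤ → ℤ} {h : ℤ} (H : PrH a1 a0 h) : PrH (sh a1) (sh a0) (h + 1) := by
  refine ⟨H.toPr.sh.n1, H.toPr.sh.n0, H.toPr.sh.m0, fun s hs => ?_, ?_, fun s hs => ?_⟩
  · have := H.m1 (s - 1) (by omega)
    simp only [Vec.sh]
    rw [show h + 1 - 1 = h by ring]; exact this
  · have := H.m2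
    simp only [Vec.sh]
    rw [show h + 1 - 1 = h by ring, show h + 1 + 1 - 1 = h + 1 by ring]; exact this
  · have := H.m3 (s - 1) (by omega)
    simp only [Vec.sh]
    rw [show h + 1 - 1 = h by ring]; exact this

theorem PrH.tr {a1 a0 : ℤ → ℤ} {h : ℤ} (H : PrH a1 a0 h) {lo hi : ℤ} (h1 : lo + 1 ≤ h)
    (h2 : h + 1 ≤ hi) : PrH (tr lo hi a1) (tr lo hi a0) h := by
  refine ⟨(H.toPr.tr lo hi).n1, (H.toPr.tr lo hi).n0, (H.toPr.tr lo hi).m0, fun s hs => ?_, ?_,
    fun s hs => ?_⟩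
  · have := H.m1 s hs
    simp only [Vec.tr]
    rw [if_pos (show lo ≤ h ∧ h ≤ hi by omega), if_pos (show lo ≤ h ∧ h ≤ hi by omega)]
    by_cases c : lo ≤ s ∧ s ≤ hi
    · rw [if_pos c, if_pos c]; exact this
    · rw [if_neg c, if_neg c]; simp
  · have := H.m2
    simp only [Vec.tr]
    rw [if_pos (show lo ≤ h ∧ h ≤ hi by omega), if_pos (show lo ≤ h - 1 ∧ h - 1 ≤ hi by omega),
      if_pos (show lo ≤ h + 1 ∧ h + 1 ≤ hi by omega), if_pos (show lo ≤ h + 1 ∧ h + 1 ≤ hi by omega),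
      if_pos (show lo ≤ h - 1 ∧ h - 1 ≤ hi by omega)]
    exact this
  · have := H.m3 s hs
    simp only [Vec.tr]
    rw [if_pos (show lo ≤ h ∧ h ≤ hi by omega), if_pos (show lo ≤ h ∧ h ≤ hi by omega)]
    by_cases c : lo ≤ s ∧ s ≤ hi
    · rw [if_pos c, if_pos c]; exact this
    · rw [if_neg c, if_neg c]; simp

/-- creation of the pair when the marked element `e` is processed -/
theorem LC.pair {A : ℤ → ℤ} (hA : LC A) : Pr (Vec.sh A) A := by
  refine ⟨fun _ => hA.nn _, hA.nn, fun z y hzy => ?_⟩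
  simp only [Vec.sh]
  rcases eq_or_lt_of_le hzy with c | c
  · subst c; exact le_rfl
  · have := hA.lc z (y - 1) (by omega)
    rw [show y - 1 + 1 = y by ring] at this
    linarith

theorem Good.pair {A : ℤ → ℤ} {h : ℤ} (hA : Good A h) : PrH (Vec.sh A) A (h + 1) := by
  refine ⟨hA.toLC.pair.n1, hA.toLC.pair.n0, hA.toLC.pair.m0, fun s hs => ?_, ?_, fun s hs => ?_⟩
  · have := hA.p1 s (by omega)
    simp only [Vec.sh]
    rw [show h + 1 - 1 = h by ring]
    linarith
  · have := hA.p3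
    simp only [Vec.sh]
    rw [show h + 1 - 1 = h by ring, show h + 1 + 1 - 1 = h + 1 by ring,
      show h + 1 + 1 = h + 2 by ring]
    linarith
  · have := hA.p2 s (by omega)
    simp only [Vec.sh]
    rw [show h + 1 - 1 = h by ring]
    linarith

/-- The antisymmetrised product. -/
def G (a1 a0 B : ℤ → ℤ) (y z : ℤ) : ℤ :=
  (a1 y * a0 z - a1 z * a0 y) * (B y * B (z + 1) - B (y + 1) * B z)

theorem G_symm (a1 a0 B : ℤ → ℤ) (y z : ℤ) : G a1 a0 B y z = G a1 a0 B z y := by
  unfold G; ring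

theorem G_key (a1 a0 B : ℤ → ℤ) (W : Finset ℤ) :
    2 * ((∑ y ∈ W, a1 y * B y) * (∑ y ∈ W, a0 y * B (y + 1)) -
      (∑ y ∈ W, a1 y * B (y + 1)) * (∑ y ∈ W, a0 y * B y)) =
      ∑ y ∈ W, ∑ z ∈ W, G a1 a0 B y z := by
  have e1 : ((∑ y ∈ W, a1 y * B y) * (∑ y ∈ W, a0 y * B (y + 1)) -
    (∑ y ∈ W, a1 y * B (y + 1)) * (∑ y ∈ W, a0 y * B y)) =
    ∑ y ∈ W, ∑ z ∈ W, (a1 y * a0 z) * (B y * B (z + 1) - B (y + 1) * B z) := by
    rw [Finset.sum_mul_sum, Finset.sum_mul_sum, ← Finset.sum_sub_distrib]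
    refine Finset.sum_congr rfl fun y _ => ?_
    rw [← Finset.sum_sub_distrib]
    refine Finset.sum_congr rfl fun z _ => ?_
    ring
  have e2 : ∑ y ∈ W, ∑ z ∈ W, (a1 y * a0 z) * (B y * B (z + 1) - B (y + 1) * B z) =
    ∑ y ∈ W, ∑ z ∈ W, (a1 z * a0 y) * (B z * B (y + 1) - B (z + 1) * B y) :=
    Finset.sum_comm
  rw [two_mul, e1]
  nth_rewrite 2 [e2]
  rw [← Finset.sum_add_distrib]
  refine Finset.sum_congr rfl fun y _ => ?_
  rw [← Finset.sum_add_distrib]
  refine Finset.sum_congr rfl fun z _ => ?_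
  unfold G
  ring

theorem G_nonneg {a1 a0 B : ℤ → ℤ} (H : Pr a1 a0) (hB : LC B) (y z : ℤ) :
    0 ≤ G a1 a0 B y z := by
  unfold G
  rcases le_total z y with c | c
  · refine mul_nonneg (by have := H.m0 z y c; linarith) ?_
    rcases eq_or_lt_of_le c with d | d
    · subst d; exact le_of_eq (by ring)
    · have := hB.lc (z + 1) y (by omega)
      rw [show z + 1 - 1 = z by ring] at this
      linarith
  · refine mul_nonneg_of_nonpos_of_nonpos (by have := H.m0 y z c; linarith) ?_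
    rcases eq_or_lt_of_le c with d | d
    · subst d; exact le_of_eq (by ring)
    · have := hB.lc (y + 1) z (by omega)
      rw [show y + 1 - 1 = y by ring] at this
      linarith

/-- The final combination, without distinguished path. -/
theorem Pr.final {a1 a0 B : ℤ → ℤ} (H : Pr a1 a0) (hB : LC B) (W : Finset ℤ) :
    (∑ y ∈ W, a1 y * B (y + 1)) * (∑ y ∈ W, a0 y * B y) ≤
    (∑ y ∈ W, a1 y * B y) * (∑ y ∈ W, a0 y * B (y + 1)) := by
  have key := G_key a1 a0 B W
  have hpos : 0 ≤ ∑ y ∈ W, ∑ z ∈ W, G a1 a0 B y z :=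
    Finset.sum_nonneg fun y _ => Finset.sum_nonneg fun z _ => G_nonneg H hB y z
  linarith

theorem G_low {a1 a0 B : ℤ → ℤ} {h : ℤ} (H : PrH a1 a0 h) (hB : Good B h) (s : ℤ) (hs : s ≠ h) :
    a0 s * B (s + 1) ≤ G a1 a0 B h s := by
  rcases lt_or_gt_of_ne hs with c | c
  · have e1 := H.m1 s c
    have e2 := hB.p1 (s + 1) (by omega)
    rw [show s + 1 - 1 = s by ring] at e2
    unfold G
    exact mul_le_mul (by linarith) (by linarith) (hB.nn _)
      (by have := H.n0 s; linarith)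
  · have e1 := H.m3 s c
    have e2 := hB.p2 (s + 1) (by omega)
    rw [show s + 1 - 1 = s by ring] at e2
    rw [G_symm]
    unfold G
    exact mul_le_mul (by linarith) (by linarith) (hB.nn _)
      (by have := H.n0 s; linarith)

theorem G_mid {a1 a0 B : ℤ → ℤ} {h : ℤ} (H : PrH a1 a0 h) (hB : Good B h) :
    a0 h * B (h + 1) ≤ G a1 a0 B (h + 1) (h - 1) := by
  have e1 := H.m2
  have e2 := hB.p3
  unfold G
  rw [show h - 1 + 1 = h by ring, show h + 1 + 1 = h + 2 by ring]
  exact mul_le_mul (by linarith) (by linarith) (hB.nn _) (by have := H.n0 h; linarith)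

/-- The final combination, with distinguished path. -/
theorem PrH.final {a1 a0 B : ℤ → ℤ} {h : ℤ} (H : PrH a1 a0 h) (hB : Good B h) (W : Finset ℤ)
    (w0 : h - 1 ∈ W) (w1 : h ∈ W) (w2 : h + 1 ∈ W) :
    (∑ y ∈ W, a1 y * B (y + 1)) * (∑ y ∈ W, a0 y * B y) + (∑ y ∈ W, a0 y * B (y + 1)) ≤
    (∑ y ∈ W, a1 y * B y) * (∑ y ∈ W, a0 y * B (y + 1)) := by
  have key := G_key a1 a0 B W
  set g : ℤ → ℤ := fun s => a0 s * B (s + 1) with hg
  have bound : ∀ y z : ℤ, (if y = h then (if z = h then 0 else g z) else 0) +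
      (if z = h then (if y = h then 0 else g y) else 0) +
      (if y = h + 1 then (if z = h - 1 then g h else 0) else 0) +
      (if y = h - 1 then (if z = h + 1 then g h else 0) else 0) ≤ G a1 a0 B y z := by
    intro y z
    have h0 := G_nonneg H.toPr hB.toLC y z
    by_cases c1 : y = h
    · rw [if_pos c1, if_pos c1]
      rw [if_neg (show ¬ y = h + 1 by omega), if_neg (show ¬ y = h - 1 by omega)]
      by_cases c2 : z = h
      · rw [if_pos c2, if_pos c2]; simpa using h0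
      · rw [if_neg c2, if_neg c2, c1]
        have := G_low H hB z c2
        simp only [hg]; linarith
    · rw [if_neg c1, if_neg c1]
      by_cases c2 : z = h
      · rw [if_pos c2]
        rw [if_neg (show ¬ z = h - 1 by omega), if_neg (show ¬ z = h + 1 by omega), c2, G_symm]
        have := G_low H hB y c1
        simp only [hg, ite_self]; linarith
      · rw [if_neg c2]
        by_cases c3 : y = h + 1
        · rw [if_pos c3, if_neg (show ¬ y = h - 1 by omega)]
          by_cases c4 : z = h - 1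
          · rw [if_pos c4, c3, c4]
            have := G_mid H hB
            simp only [hg]; linarith
          · rw [if_neg c4]; linarith
        · rw [if_neg c3]
          by_cases c5 : y = h - 1
          · rw [if_pos c5]
            by_cases c6 : z = h + 1
            · rw [if_pos c6, c5, c6, G_symm]
              have := G_mid H hB
              simp only [hg]; linarith
            · rw [if_neg c6]; linarith
          · rw [if_neg c5]; linarith
  have hsum := Finset.sum_le_sum (fun y (_ : y ∈ W) => Finset.sum_le_sum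
    (fun z (_ : z ∈ W) => bound y z))
  have hg2 : ∑ z ∈ W, (if z = h then 0 else g z) = ∑ z ∈ W, g z - g h := by
    rw [← Finset.add_sum_erase W g w1, Finset.sum_ite]
    simp only [Finset.sum_const_zero, zero_add]
    rw [show (Finset.filter (fun x => ¬ x = h) W) = W.erase h from Finset.filter_ne' W h]
    ring
  have hleft : ∑ y ∈ W, ∑ z ∈ W, ((if y = h then (if z = h then 0 else g z) else 0) +
      (if z = h then (if y = h then 0 else g y) else 0) +
      (if y = h + 1 then (if z = h - 1 then g h else 0) else 0) +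
      (if y = h - 1 then (if z = h + 1 then g h else 0) else 0)) = 2 * ∑ z ∈ W, g z := by
    simp only [Finset.sum_add_distrib]
    have t1 : ∑ y ∈ W, ∑ z ∈ W, (if y = h then (if z = h then 0 else g z) else 0) =
        ∑ z ∈ W, g z - g h := by
      rw [Finset.sum_comm]
      rw [← hg2]
      refine Finset.sum_congr rfl fun z _ => ?_
      rw [Finset.sum_ite_eq' W h, if_pos w1]
    have t2 : ∑ y ∈ W, ∑ z ∈ W, (if z = h then (if y = h then 0 else g y) else 0) =
        ∑ z ∈ W, g z - g h := by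
      rw [← hg2]
      refine Finset.sum_congr rfl fun z _ => ?_
      rw [Finset.sum_ite_eq' W h, if_pos w1]
    have t3 : ∑ y ∈ W, ∑ z ∈ W, (if y = h + 1 then (if z = h - 1 then g h else 0) else 0) = g h := by
      rw [Finset.sum_comm]
      have : ∀ z ∈ W, ∑ y ∈ W, (if y = h + 1 then (if z = h - 1 then g h else 0) else 0) =
          (if z = h - 1 then g h else 0) := by
        intro z _
        rw [Finset.sum_ite_eq' W (h + 1), if_pos w2]
      rw [Finset.sum_congr rfl this, Finset.sum_ite_eq' W (h - 1), if_pos w0]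
    have t4 : ∑ y ∈ W, ∑ z ∈ W, (if y = h - 1 then (if z = h + 1 then g h else 0) else 0) = g h := by
      rw [Finset.sum_comm]
      have : ∀ z ∈ W, ∑ y ∈ W, (if y = h - 1 then (if z = h + 1 then g h else 0) else 0) =
          (if z = h + 1 then g h else 0) := by
        intro z _
        rw [Finset.sum_ite_eq' W (h - 1), if_pos w0]
      rw [Finset.sum_congr rfl this, Finset.sum_ite_eq' W (h + 1), if_pos w2]
    rw [t1, t2, t3, t4]
    ring
  rw [hleft] at hsum
  linarith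

end Pool.Agent.Helper442.Vec
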