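import Pool.Agent.Helper442.Pair

set_option autoImplicit false

namespace Pool.Agent.Helper442.Vec

theorem stp_tt (lo hi : ℤ) (A : ℤ → ℤ) : stp true true lo hi A = tr lo hi (fr A) := by
  funext x; simp [stp, tr, fr]

theorem stp_tf (lo hi : ℤ) (A : ℤ → ℤ) : stp true false lo hi A = tr lo hi (sh A) := by
  funext x; simp [stp, tr, sh]

theorem stp_ft (lo hi : ℤ) (A : ℤ → ℤ) : stp false true lo hi A = tr lo hi A := by
  funext x; simp [stp, tr]

theorem stp_ff (lo hi : ℤ) (A : ℤ → ℤ) : stp false false lo hi A = fun _ => 0 := by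
  funext x; simp [stp]

theorem bstp_eq (u v : Bool) (lo hi : ℤ) (B : ℤ → ℤ) (x : ℤ) :
    bstp u v lo hi B x = (if v = true then tr lo hi B x else 0) +
      (if u = true then tr lo hi B (x + 1) else 0) := rfl

/-- forward vectors -/
def vec (u v : ℕ → Bool) (lo hi : ℕ → ℤ) : ℕ → ℤ → ℤ
  | 0 => fun x => if x = 0 then 1 else 0
  | (i + 1) => stp (u i) (v i) (lo (i + 1)) (hi (i + 1)) (vec u v lo hi i)

/-- backward vectors, `m` steps before the end -/
def bk (u v : ℕ → Bool) (lo hi : ℕ → ℤ) (n : ℕ) (r : ℤ) : ℕ → ℤ → ℤ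
  | 0 => fun x => if x = r then 1 else 0
  | (m + 1) => bstp (u (n - m - 1)) (v (n - m - 1)) (lo (n - m)) (hi (n - m))
      (bk u v lo hi n r m)

theorem vec_congr {u v u' v' : ℕ → Bool} (lo hi : ℕ → ℤ) (i : ℕ)
    (hu : ∀ j < i, u j = u' j) (hv : ∀ j < i, v j = v' j) :
    vec u v lo hi i = vec u' v' lo hi i := by
  induction i with
  | zero => rfl
  | succ i ih =>
    simp only [vec]
    rw [ih (fun j hj => hu j (by omega)) (fun j hj => hv j (by omega)), hu i (by omega),
      hv i (by omega)]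

theorem bk_congr {u v u' v' : ℕ → Bool} (lo hi : ℕ → ℤ) (n : ℕ) (r : ℤ) (m : ℕ) (hm : m ≤ n)
    (hu : ∀ j, n - m ≤ j → u j = u' j) (hv : ∀ j, n - m ≤ j → v j = v' j) :
    bk u v lo hi n r m = bk u' v' lo hi n r m := by
  induction m with
  | zero => rfl
  | succ m ih =>
    simp only [bk]
    rw [ih (by omega) (fun j hj => hu j (by omega)) (fun j hj => hv j (by omega)),
      hu (n - m - 1) (by omega), hv (n - m - 1) (by omega)]

theorem vec_supp (u v : ℕ → Bool) (lo hi : ℕ → ℤ) (i : ℕ) (x : ℤ) (hx : x < 0 ∨ (i : ℤ) < x) :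
    vec u v lo hi i x = 0 := by
  induction i generalizing x with
  | zero =>
    simp only [vec]
    rw [if_neg (by rcases hx with h | h <;> [omega; (simp at h; omega)])]
  | succ i ih =>
    simp only [vec, stp]
    rw [ih x (by push_cast at hx; omega), ih (x - 1) (by push_cast at hx; omega)]
    simp

theorem vec_nn (u v : ℕ → Bool) (lo hi : ℕ → ℤ) (i : ℕ) (x : ℤ) : 0 ≤ vec u v lo hi i x := by
  induction i generalizing x with
  | zero => simp only [vec]; split_ifs <;> norm_num
  | succ i ih =>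
    have h1 := ih x
    have h2 := ih (x - 1)
    simp only [vec, stp]
    split_ifs <;> omega

/-- summation window -/
noncomputable def Wn (n : ℕ) : Finset ℤ := Finset.Icc (-1) ((n : ℤ) + 1)

theorem sum_shift (n : ℕ) (F : ℤ → ℤ) (hF : ∀ x, x < 0 ∨ (n : ℤ) < x → F x = 0) :
    ∑ x ∈ Wn n, F (x - 1) = ∑ x ∈ Wn n, F x := by
  have h1 : ∑ x ∈ Wn n, F x = ∑ x ∈ Finset.Icc (0 : ℤ) n, F x := by
    symm
    apply Finset.sum_subset
    · intro x hx; simp only [Wn, Finset.mem_Icc] at *; omega
    · intro x _ hx; apply hF; simp only [Finset.mem_Icc] at hx; omega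
  have h2 : ∑ x ∈ Wn n, F (x - 1) = ∑ x ∈ Finset.Icc (-2 : ℤ) n, F x := by
    refine Finset.sum_bij (fun x _ => x - 1) ?_ ?_ ?_ ?_
    · intro x hx; simp only [Wn, Finset.mem_Icc] at *; omega
    · intro x _ y _ h; omega
    · intro y hy; refine ⟨y + 1, ?_, by ring⟩; simp only [Wn, Finset.mem_Icc] at *; omega
    · intro x _; rfl
  have h3 : ∑ x ∈ Finset.Icc (-2 : ℤ) n, F x = ∑ x ∈ Finset.Icc (0 : ℤ) n, F x := by
    symm
    apply Finset.sum_subset
    · intro x hx; simp only [Finset.mem_Icc] at *; omega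
    · intro x _ hx; apply hF; simp only [Finset.mem_Icc] at hx; omega
  rw [h1, h2, h3]

theorem adj_step (n : ℕ) (u v : Bool) (lo hi : ℤ) (A B : ℤ → ℤ)
    (hA : ∀ x, x < 0 ∨ (n : ℤ) < x → A x = 0) :
    ∑ x ∈ Wn n, stp u v lo hi A x * B x = ∑ x ∈ Wn n, A x * bstp u v lo hi B x := by
  have h1 : ∀ x, stp u v lo hi A x * B x =
      A x * (if v = true then tr lo hi B x else 0) +
      (fun z => A z * (if u = true then tr lo hi B (z + 1) else 0)) (x - 1) := by
    intro x
    simp only [stp, tr]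
    rw [show x - 1 + 1 = x by ring]
    split_ifs <;> ring
  have h2 : ∀ x, A x * bstp u v lo hi B x =
      A x * (if v = true then tr lo hi B x else 0) +
      (fun z => A z * (if u = true then tr lo hi B (z + 1) else 0)) x := by
    intro x
    rw [bstp_eq]; ring
  rw [Finset.sum_congr rfl (fun x _ => h1 x), Finset.sum_congr rfl (fun x _ => h2 x),
    Finset.sum_add_distrib, Finset.sum_add_distrib]
  congr 1
  apply sum_shift n (fun z => A z * (if u = true then tr lo hi B (z + 1) else 0))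
  intro x hx
  show A x * _ = 0
  rw [hA x hx, zero_mul]

theorem vec_bk (u v : ℕ → Bool) (lo hi : ℕ → ℤ) (n : ℕ) (r : ℤ) (hr : r ∈ Wn n) (m : ℕ)
    (hm : m ≤ n) :
    vec u v lo hi n r = ∑ x ∈ Wn n, vec u v lo hi (n - m) x * bk u v lo hi n r m x := by
  induction m with
  | zero =>
    simp only [bk, Nat.sub_zero, mul_ite, mul_one, mul_zero]
    rw [Finset.sum_ite_eq' (Wn n) r, if_pos hr]
  | succ m ih =>
    rw [ih (by omega)]
    have e : n - m = (n - (m + 1)) + 1 := by omega
    have e2 : n - m - 1 = n - (m + 1) := by omega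
    simp only [bk]
    rw [← adj_step n _ _ _ _ _ _ (fun x hx => vec_supp u v lo hi (n - (m + 1)) x (by
      rcases hx with h | h
      · left; exact h
      · right; have : ((n - (m + 1) : ℕ) : ℤ) ≤ n := by omega
        omega))]
    refine Finset.sum_congr rfl fun x _ => ?_
    congr 1
    rw [e2]
    conv_lhs => rw [e]
    simp only [vec]
    rw [← e]

/-- marking: element `e` is forced in (`b = true`) or out (`b = false`) -/
def mkU (u : ℕ → Bool) (e : ℕ) (b : Bool) : ℕ → Bool := fun i => if i = e then b else u i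

/-- marking, for the flags allowing an element to be left out -/
def mkV (v : ℕ → Bool) (e : ℕ) (b : Bool) : ℕ → Bool := fun i => if i = e then !b else v i

theorem lc_delta (r : ℤ) : LC (fun x => if x = r then 1 else 0) := by
  refine ⟨fun x => by split_ifs <;> norm_num, fun x y hxy => ?_⟩
  by_cases h1 : x - 1 = r
  · rw [if_pos h1, if_neg (show ¬ y + 1 = r by omega)]
    split_ifs <;> norm_num
  · rw [if_neg h1]; split_ifs <;> norm_num

theorem good_delta (r : ℤ) : Good (fun x => if x = r then 1 else 0) r := by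
  refine ⟨(lc_delta r).nn, (lc_delta r).lc, fun q hq => ?_, fun q hq => ?_, ?_⟩
  · rw [if_neg (show ¬ q - 1 = r by omega), if_pos rfl]; simp
  · rw [if_neg (show ¬ q = r by omega)]
    split_ifs <;> norm_num
  · rw [if_neg (show ¬ r - 1 = r by omega), if_neg (show ¬ r + 1 = r by omega)]; simp

theorem lc_zero : LC (fun _ => 0) := ⟨fun _ => le_rfl, fun _ _ _ => le_rfl⟩

theorem LC.stp {A : ℤ → ℤ} (hA : LC A) (u v : Bool) (lo hi : ℤ) : LC (stp u v lo hi A) := by
  cases u <;> cases v
  · rw [stp_ff]; exact lc_zero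
  · rw [stp_ft]; exact hA.tr _ _
  · rw [stp_tf]; exact hA.sh.tr _ _
  · rw [stp_tt]; exact hA.fr.tr _ _

theorem vec_lc (u v : ℕ → Bool) (lo hi : ℕ → ℤ) (i : ℕ) : LC (vec u v lo hi i) := by
  induction i with
  | zero => exact lc_delta 0
  | succ i ih => exact ih.stp _ _ _ _

/-- backward shift -/
theorem LC.shb {A : ℤ → ℤ} (hA : LC A) : LC (fun x => A (x + 1)) := by
  refine ⟨fun x => hA.nn _, fun x y hxy => ?_⟩
  have := hA.lc (x + 1) (y + 1) (by omega)
  rw [show x - 1 + 1 = x + 1 - 1 by ring]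
  exact this

theorem Good.shb {A : ℤ → ℤ} {h : ℤ} (hA : Good A (h + 1)) : Good (fun x => A (x + 1)) h := by
  refine ⟨hA.toLC.shb.nn, hA.toLC.shb.lc, fun q hq => ?_, fun q hq => ?_, ?_⟩
  · have := hA.p1 (q + 1) (by omega)
    rw [show q - 1 + 1 = q + 1 - 1 by ring]; exact this
  · have := hA.p2 (q + 1) (by omega)
    rw [show q - 1 + 1 = q + 1 - 1 by ring]; exact this
  · have := hA.p3
    rw [show h - 1 + 1 = h + 1 - 1 by ring, show h + 2 + 1 = h + 1 + 2 by ring]; exact this

theorem bstp_tt (lo hi : ℤ) (B : ℤ → ℤ) :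
    bstp true true lo hi B = fun x => fr (tr lo hi B) (x + 1) := by
  funext x; simp only [bstp_eq, fr, if_true]
  rw [show x + 1 - 1 = x by ring]; ring

theorem bstp_tf (lo hi : ℤ) (B : ℤ → ℤ) :
    bstp true false lo hi B = fun x => tr lo hi B (x + 1) := by
  funext x; simp [bstp_eq]

theorem bstp_ft (lo hi : ℤ) (B : ℤ → ℤ) :
    bstp false true lo hi B = tr lo hi B := by
  funext x; simp [bstp_eq]

theorem bstp_ff (lo hi : ℤ) (B : ℤ → ℤ) :
    bstp false false lo hi B = fun _ => 0 := by
  funext x; simp [bstp_eq]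

theorem LC.bstp {B : ℤ → ℤ} (hB : LC B) (u v : Bool) (lo hi : ℤ) : LC (bstp u v lo hi B) := by
  cases u <;> cases v
  · rw [bstp_ff]; exact lc_zero
  · rw [bstp_ft]; exact hB.tr _ _
  · rw [bstp_tf]; exact (hB.tr _ _).shb
  · rw [bstp_tt]; exact (hB.tr _ _).fr.shb

theorem bk_lc (u v : ℕ → Bool) (lo hi : ℕ → ℤ) (n : ℕ) (r : ℤ) (m : ℕ) :
    LC (bk u v lo hi n r m) := by
  induction m with
  | zero => exact lc_delta r
  | succ m ih => exact ih.bstp _ _ _ _

/-- A distinguished path: heights `h i`, steps `H i`. -/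
structure Path (u v : ℕ → Bool) (lo hi : ℕ → ℤ) (n : ℕ) (r : ℤ) (H : ℕ → Bool) (h : ℕ → ℤ) :
    Prop where
  zero : h 0 = 0
  last : h n = r
  step : ∀ i < n, h (i + 1) = h i + (if H i = true then 1 else 0)
  hu : ∀ i < n, H i = true → u i = true
  hv : ∀ i < n, H i = false → v i = true
  hlo : ∀ i < n, lo (i + 1) + 1 ≤ h (i + 1)
  hhi : ∀ i < n, h (i + 1) + 1 ≤ hi (i + 1)

theorem vec_good {u v : ℕ → Bool} {lo hi : ℕ → ℤ} {n : ℕ} {r : ℤ} {H : ℕ → Bool} {h : ℕ → ℤ}
    (P : Path u v lo hi n r H h) (i : ℕ) (hi' : i ≤ n) : Good (vec u v lo hi i) (h i) := by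
  induction i with
  | zero => rw [P.zero]; exact good_delta 0
  | succ i ih =>
    have g := ih (by omega)
    have s := P.step i (by omega)
    have l1 := P.hlo i (by omega)
    have l2 := P.hhi i (by omega)
    have hu := P.hu i (by omega)
    have hv := P.hv i (by omega)
    simp only [vec]
    cases hH : H i
    · rw [hH] at s
      simp only [Bool.false_eq_true, if_false, add_zero] at s
      have hv' := hv hH
      rw [s] at l1 l2 ⊢
      rw [hv']
      cases hu' : u i
      · rw [stp_ft]; exact g.tr (by omega) (by omega)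
      · rw [stp_tt]; exact g.fr0.tr (by omega) (by omega)
    · rw [hH] at s
      simp only [if_true] at s
      have hu' := hu hH
      rw [s] at l1 l2 ⊢
      rw [hu']
      cases hv' : v i
      · rw [stp_tf]; exact g.sh.tr (by omega) (by omega)
      · rw [stp_tt]; exact g.fr1.tr (by omega) (by omega)

theorem bk_good {u v : ℕ → Bool} {lo hi : ℕ → ℤ} {n : ℕ} {r : ℤ} {H : ℕ → Bool} {h : ℕ → ℤ}
    (P : Path u v lo hi n r H h) (m : ℕ) (hm : m ≤ n) : Good (bk u v lo hi n r m) (h (n - m)) := by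
  induction m with
  | zero => rw [Nat.sub_zero, P.last]; exact good_delta r
  | succ m ih =>
    have g := ih (by omega)
    obtain ⟨i, hi'⟩ : ∃ i, n - (m + 1) = i := ⟨_, rfl⟩
    have e1 : n - m - 1 = i := by omega
    have e2 : n - m = i + 1 := by omega
    have hin : i < n := by omega
    rw [hi']
    simp only [bk]
    rw [e1]
    rw [e2] at g ⊢
    have s := P.step i hin
    have l1 := P.hlo i hin
    have l2 := P.hhi i hin
    have hu := P.hu i hin
    have hv := P.hv i hin
    have g' := g.tr (lo := lo (i + 1)) (hi := hi (i + 1)) (by omega) (by omega)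
    cases hH : H i
    · rw [hH] at s
      simp only [Bool.false_eq_true, if_false, add_zero] at s
      have hv' := hv hH
      rw [hv']
      rw [s] at g'
      cases hu' : u i
      · rw [bstp_ft]; exact g'
      · rw [bstp_tt]; exact g'.fr1.shb
    · rw [hH] at s
      simp only [if_true] at s
      have hu' := hu hH
      rw [hu']
      rw [s] at g'
      cases hv' : v i
      · rw [bstp_tf]; exact g'.shb
      · rw [bstp_tt]; exact g'.fr0.shb

end Pool.Agent.Helper442.Vec
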