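import Pool.Agent.Helper442.Exch
import Pool.Agent.Helper442.Minor

set_option autoImplicit false

namespace Pool.Agent.Helper442.Vec

open Set

/-- negative correlation for a family of subsets -/
def NCE {α : Type*} (E : Set α) (P : Set α → Prop) : Prop :=
  ∀ e ∈ E, ∀ f ∈ E, e ≠ f →
    Set.ncard {B : Set α | P B ∧ e ∈ B ∧ f ∈ B} * Set.ncard {B : Set α | P B} ≤
    Set.ncard {B : Set α | P B ∧ e ∈ B} * Set.ncard {B : Set α | P B ∧ f ∈ B}

/-- the four counts -/
noncomputable def Nq {α : Type*} (P : Set α → Prop) (e f : α) (p q : Bool) : ℕ :=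
  Set.ncard {B : Set α | P B ∧ (e ∈ B ↔ p = true) ∧ (f ∈ B ↔ q = true)}

theorem nc_iff {α : Type*} [Finite α] (P : Set α → Prop) (e f : α) :
    (Set.ncard {B : Set α | P B ∧ e ∈ B ∧ f ∈ B} * Set.ncard {B : Set α | P B} ≤
      Set.ncard {B : Set α | P B ∧ e ∈ B} * Set.ncard {B : Set α | P B ∧ f ∈ B}) ↔
    Nq P e f true true * Nq P e f false false ≤ Nq P e f true false * Nq P e f false true := by
  have h1 : {B : Set α | P B ∧ e ∈ B ∧ f ∈ B}.ncard = Nq P e f true true := by
    unfold Nq; congr 1; ext B; simp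
  have h2 : {B : Set α | P B ∧ e ∈ B}.ncard = Nq P e f true true + Nq P e f true false := by
    unfold Nq
    rw [← Set.ncard_union_eq ?_ (toFinite _) (toFinite _)]
    · congr 1; ext B
      simp only [mem_ofPred_eq, mem_union]
      by_cases h : f ∈ B <;> simp [h]
    · rw [Set.disjoint_left]; rintro B ⟨_, _, h⟩ ⟨_, _, h'⟩
      simp at h h'; exact h' h
  have h3 : {B : Set α | P B ∧ f ∈ B}.ncard = Nq P e f true true + Nq P e f false true := by
    unfold Nq
    rw [← Set.ncard_union_eq ?_ (toFinite _) (toFinite _)]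
    · congr 1; ext B
      simp only [mem_ofPred_eq, mem_union]
      by_cases h : e ∈ B <;> simp [h]
    · rw [Set.disjoint_left]; rintro B ⟨_, h, _⟩ ⟨_, h', _⟩
      simp at h h'; exact h' h
  have h4 : {B : Set α | P B ∧ e ∉ B}.ncard = Nq P e f false true + Nq P e f false false := by
    unfold Nq
    rw [← Set.ncard_union_eq ?_ (toFinite _) (toFinite _)]
    · congr 1; ext B
      simp only [mem_ofPred_eq, mem_union]
      by_cases h : f ∈ B <;> simp [h]
    · rw [Set.disjoint_left]; rintro B ⟨_, _, h⟩ ⟨_, _, h'⟩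
      simp at h h'; exact h' h
  have h5 : {B : Set α | P B}.ncard =
      {B : Set α | P B ∧ e ∈ B}.ncard + {B : Set α | P B ∧ e ∉ B}.ncard := by
    rw [← Set.ncard_union_eq ?_ (toFinite _) (toFinite _)]
    · congr 1; ext B
      simp only [mem_ofPred_eq, mem_union]
      by_cases h : e ∈ B <;> simp [h]
    · rw [Set.disjoint_left]; rintro B ⟨_, h⟩ ⟨_, h'⟩
      exact h' h
  rw [h5, h1, h2, h3, h4]
  constructor <;> intro h <;> nlinarith

open Classical in
/-- the subset of `ℕ` coded by `B` -/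
noncomputable def im {m : ℕ} (φ : Fin m → ℕ) (X : Finset ℕ) (B : Set (Fin m)) : Finset ℕ :=
  (B.toFinite.toFinset.image φ) ∪ X

theorem mem_im {m : ℕ} {φ : Fin m → ℕ} {X : Finset ℕ} {B : Set (Fin m)} {j : ℕ} :
    j ∈ im φ X B ↔ (∃ i ∈ B, φ i = j) ∨ j ∈ X := by
  simp [im]

/-- admissible codings -/
structure Emb (n m : ℕ) (F : Finset (Finset ℕ)) (φ : Fin m → ℕ) (X : Finset ℕ) : Prop where
  inj : Function.Injective φ
  lt : ∀ i, φ i < n
  xlt : ∀ j ∈ X, j < n
  disj : ∀ i, φ i ∉ X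
  ne : ∃ B, im φ X B ∈ F

theorem mem_im_iff {n m : ℕ} {F : Finset (Finset ℕ)} {φ : Fin m → ℕ} {X : Finset ℕ}
    (hE : Emb n m F φ X) {B : Set (Fin m)} {i : Fin m} : φ i ∈ im φ X B ↔ i ∈ B := by
  rw [mem_im]
  constructor
  · rintro (⟨j, hj, h⟩ | h)
    · rw [← hE.inj h]; exact hj
    · exact absurd h (hE.disj i)
  · intro h; exact Or.inl ⟨i, h, rfl⟩

theorem im_inj {n m : ℕ} {F : Finset (Finset ℕ)} {φ : Fin m → ℕ} {X : Finset ℕ}
    (hE : Emb n m F φ X) : Function.Injective (im φ X) := by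
  intro B B' h
  ext i
  rw [← mem_im_iff hE, h, mem_im_iff hE]

theorem im_exch {n m : ℕ} {F : Finset (Finset ℕ)} {φ : Fin m → ℕ} {X : Finset ℕ}
    (hE : Emb n m F φ X) (hF : Exch F) : Matroid.ExchangeProperty (fun B => im φ X B ∈ F) := by
  classical
  intro B1 B2 h1 h2 a ha
  obtain ⟨b', hb1, hb2, hb3⟩ := hF _ h1 _ h2 (φ a) ((mem_im_iff hE).2 ha.1)
    (fun h => ha.2 ((mem_im_iff hE).1 h))
  have hbX : b' ∉ X := fun h => hb2 (mem_im.2 (Or.inr h))
  obtain ⟨b, hb, rfl⟩ : ∃ i ∈ B2, φ i = b' := by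
    rcases mem_im.1 hb1 with h | h
    · exact h
    · exact absurd h hbX
  have hbn : b ∉ B1 := fun h => hb2 ((mem_im_iff hE).2 h)
  refine ⟨b, ⟨hb, hbn⟩, ?_⟩
  have : im φ X (insert b (B1 \ {a})) = insert (φ b) ((im φ X B1).erase (φ a)) := by
    ext j
    rw [mem_im, Finset.mem_insert, Finset.mem_erase, mem_im]
    constructor
    · rintro (⟨i, hi, rfl⟩ | h)
      · rcases hi with hi | hi
        · left; rw [hi]
        · right
          refine ⟨fun h => hi.2 (hE.inj h), Or.inl ⟨i, hi.1, rfl⟩⟩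
      · right
        exact ⟨fun h' => hE.disj a (h' ▸ h), Or.inr h⟩
    · rintro (h | ⟨h1, h | h⟩)
      · left; exact ⟨b, Or.inl rfl, h.symm⟩
      · obtain ⟨i, hi, rfl⟩ := h
        left; exact ⟨i, Or.inr ⟨hi, fun h' => h1 (by rw [h'])⟩, rfl⟩
      · right; exact h
  show im φ X (insert b (B1 \ {a})) ∈ F
  rw [this]; exact hb3

/-- the matroid of a coding -/
noncomputable def mat {n m : ℕ} {F : Finset (Finset ℕ)} {φ : Fin m → ℕ} {X : Finset ℕ}
    (hE : Emb n m F φ X) (hF : Exch F) : Matroid (Fin m) :=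
  Matroid.ofIsBaseOfFinite (E := Set.univ) Set.finite_univ (fun B => im φ X B ∈ F) hE.ne
    (im_exch hE hF) (fun _ _ => subset_univ _)

theorem mat_E {n m : ℕ} {F : Finset (Finset ℕ)} {φ : Fin m → ℕ} {X : Finset ℕ}
    (hE : Emb n m F φ X) (hF : Exch F) : (mat hE hF).E = univ := rfl

theorem mat_isBase {n m : ℕ} {F : Finset (Finset ℕ)} {φ : Fin m → ℕ} {X : Finset ℕ}
    (hE : Emb n m F φ X) (hF : Exch F) (B : Set (Fin m)) :
    (mat hE hF).IsBase B ↔ im φ X B ∈ F := Iff.rfl

theorem ncard_tr {α : Type*} {m' : ℕ} (ψ : Fin m' → α) (hψ : Function.Injective ψ)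
    (P : Set α → Prop) (hP : ∀ B, P B → B ⊆ range ψ) (R : Set α → Prop) :
    {B | P B ∧ R B}.ncard = {B' : Set (Fin m') | P (ψ '' B') ∧ R (ψ '' B')}.ncard := by
  have : {B | P B ∧ R B} = (fun B' => ψ '' B') '' {B' : Set (Fin m') | P (ψ '' B') ∧ R (ψ '' B')} := by
    ext B
    constructor
    · rintro ⟨h1, h2⟩
      have h3 : ψ '' (ψ ⁻¹' B) = B := Set.image_preimage_eq_of_subset (hP B h1)
      refine ⟨ψ ⁻¹' B, ?_, h3⟩
      show P (ψ '' (ψ ⁻¹' B)) ∧ R (ψ '' (ψ ⁻¹' B))
      rw [h3]; exact ⟨h1, h2⟩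
    · rintro ⟨B', h, rfl⟩
      exact h
  rw [this]
  exact Set.ncard_image_of_injective _ hψ.image_injective

theorem NCE_tr {α : Type*} {m' : ℕ} (ψ : Fin m' → α) (hψ : Function.Injective ψ)
    (P : Set α → Prop) (hP : ∀ B, P B → B ⊆ range ψ)
    (h : NCE univ (fun B' => P (ψ '' B'))) : NCE (range ψ) P := by
  rintro _ ⟨e, rfl⟩ _ ⟨f, rfl⟩ hef
  have key := h e (mem_univ _) f (mem_univ _) (fun h' => hef (by rw [h']))
  have h1 := ncard_tr ψ hψ P hP (fun B => ψ e ∈ B ∧ ψ f ∈ B)
  have h2 := ncard_tr ψ hψ P hP (fun _ => True)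
  have h3 := ncard_tr ψ hψ P hP (fun B => ψ e ∈ B)
  have h4 := ncard_tr ψ hψ P hP (fun B => ψ f ∈ B)
  simp only [and_true, hψ.mem_set_image] at h1 h2 h3 h4
  rw [h1, h2, h3, h4]
  exact key

/-- Small codings are negatively correlated. -/
theorem small_nc {lo hi : ℕ → ℤ} {n m D : ℕ} {r : ℤ} {C : Finset (Finset ℕ)} {φ : Fin m → ℕ}
    {X : Finset ℕ} (hE : Emb n m (SF lo hi n r \ C) φ X) (hm : m ≤ D)
    (hC : ∀ S ∈ C, ∀ S' ∈ C, S ≠ S' → D < (symmDiff S S').card)
    (hI : ∀ S ∈ C, Inn lo hi n S) : NCE univ (fun B => im φ X B ∈ SF lo hi n r \ C) := by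
  classical
  intro e _ f _ hef
  rw [nc_iff]
  set u : ℕ → Bool := fun i => decide ((∃ j, φ j = i) ∨ i ∈ X) with hu
  set v : ℕ → Bool := fun i => decide (i ∉ X) with hv
  have hφef : φ e ≠ φ f := fun h => hef (hE.inj h)
  have hcount : ∀ p q, Nq (fun B => im φ X B ∈ SF lo hi n r \ C) e f p q =
      cn (Fam u v lo hi n r \ C) (φ e) (φ f) p q := by
    intro p q
    unfold Nq cn
    rw [← Set.ncard_coe_finset, ← Set.ncard_image_of_injective _ (im_inj hE)]
    congr 1
    ext S
    simp only [Set.mem_image, mem_ofPred_eq, Finset.coe_filter, Finset.mem_sdiff]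
    constructor
    · rintro ⟨B, ⟨⟨h1, h2⟩, h3, h4⟩, rfl⟩
      refine ⟨⟨?_, h2⟩, ?_, ?_⟩
      · rw [mem_SF] at h1
        rw [mem_Fam]
        refine ⟨h1.1, ?_, h1.2.1, h1.2.2⟩
        intro i _
        constructor
        · intro h
          rw [mem_im] at h
          simp only [hu, decide_eq_true_eq]
          rcases h with ⟨j, _, hj⟩ | h
          · exact Or.inl ⟨j, hj⟩
          · exact Or.inr h
        · intro h
          simp only [hv, decide_eq_true_eq]
          exact fun h' => h (mem_im.2 (Or.inr h'))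
      · rw [mem_im_iff hE]; exact h3
      · rw [mem_im_iff hE]; exact h4
    · rintro ⟨⟨h1, h2⟩, h3, h4⟩
      rw [mem_Fam] at h1
      have him : im φ X {i | φ i ∈ S} = S := by
        ext j
        rw [mem_im]
        constructor
        · rintro (⟨i, hi, rfl⟩ | h)
          · exact hi
          · by_contra h'
            have := (h1.2.1 j (hE.xlt j h)).2 h'
            simp only [hv, decide_eq_true_eq] at this
            exact this h
        · intro h
          have := (h1.2.1 j (h1.1 j h)).1 h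
          simp only [hu, decide_eq_true_eq] at this
          rcases this with ⟨i, hi⟩ | h'
          · exact Or.inl ⟨i, by show φ i ∈ S; rw [hi]; exact h, hi⟩
          · exact Or.inr h'
      refine ⟨{i | φ i ∈ S}, ⟨⟨?_, ?_⟩, h3, h4⟩, him⟩
      · rw [him, mem_SF]
        exact ⟨h1.1, h1.2.2.1, h1.2.2.2⟩
      · rw [him]; exact h2
  simp only [hcount]
  apply fam_nc hφef (hE.lt e) (hE.lt f)
  · simp [hu]
  · simp [hv, hE.disj e]
  · simp [hu]
  · simp [hv, hE.disj f]
  · intro S hS S' hS' h1 h2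
    by_contra hne
    have h3 := hC S hS S' hS' hne
    rw [mem_Fam] at h1 h2
    have h4 : symmDiff S S' ⊆ Finset.univ.image φ := by
      intro j hj
      rw [Finset.mem_symmDiff] at hj
      have hjX : j ∉ X := by
        rcases hj with ⟨a1, a2⟩ | ⟨a1, a2⟩
        · have := (h2.2.1 j (h1.1 j a1)).2 a2
          simpa [hv] using this
        · have := (h1.2.1 j (h2.1 j a1)).2 a2
          simpa [hv] using this
      have hju : (∃ i, φ i = j) ∨ j ∈ X := by
        rcases hj with ⟨a1, a2⟩ | ⟨a1, a2⟩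
        · have := (h1.2.1 j (h1.1 j a1)).1 a1
          simpa [hu] using this
        · have := (h2.2.1 j (h2.1 j a1)).1 a1
          simpa [hu] using this
      rcases hju with ⟨i, hi⟩ | h
      · exact Finset.mem_image.2 ⟨i, Finset.mem_univ _, hi⟩
      · exact absurd h hjX
    have h5 := Finset.card_le_card h4
    have h6 : (Finset.univ.image φ).card ≤ m := by
      calc (Finset.univ.image φ).card ≤ (Finset.univ : Finset (Fin m)).card :=
            Finset.card_image_le
        _ = m := by simp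
    omega
  · exact hI

/-- A violated coding gives an excluded minor. -/
theorem exists_excluded {lo hi : ℕ → ℤ} {n D : ℕ} {r : ℤ} {C : Finset (Finset ℕ)}
    (hF : Exch (SF lo hi n r \ C))
    (hC : ∀ S ∈ C, ∀ S' ∈ C, S ≠ S' → D < (symmDiff S S').card)
    (hI : ∀ S ∈ C, Inn lo hi n S)
    (hv : ∃ m : ℕ, ∃ φ : Fin m → ℕ, ∃ X : Finset ℕ, Emb n m (SF lo hi n r \ C) φ X ∧
      ¬ NCE univ (fun B => im φ X B ∈ SF lo hi n r \ C)) :
    ∃ k : ℕ, D ≤ k ∧ ∃ M : Matroid (Fin k), M.E = Set.univ ∧ ¬ NCE M.E M.IsBase ∧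
      ∀ N : Matroid (Fin k), N.IsStrictMinor M → NCE N.E N.IsBase := by
  classical
  obtain ⟨φ, X, hE, hN⟩ := Nat.find_spec hv
  have hmin : ∀ m', m' < Nat.find hv → ∀ φ : Fin m' → ℕ, ∀ X : Finset ℕ,
      Emb n m' (SF lo hi n r \ C) φ X → NCE univ (fun B => im φ X B ∈ SF lo hi n r \ C) := by
    intro m' h φ X h1
    by_contra h2
    exact Nat.find_min hv h ⟨φ, X, h1, h2⟩
  obtain ⟨k, hk⟩ : ∃ k, k = Nat.find hv := ⟨_, rfl⟩
  rw [← hk] at hmin
  revert φ X
  rw [← hk]
  intro φ X hE hN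
  refine ⟨k, ?_, mat hE hF, rfl, hN, ?_⟩
  · by_contra h
    exact hN (small_nc hE (by omega) hC hI)
  · intro K hK
    obtain ⟨X', hX'd, hX'⟩ := minor_bases hK.isMinor
    have hss : K.E ⊂ univ := hK.ssubset
    have hcard : (K.E.toFinite.toFinset).card < k := by
      have h1 : K.E.toFinite.toFinset ⊂ Finset.univ := by
        rw [Finset.ssubset_univ_iff]
        intro h
        apply hss.ne
        ext x
        simp only [mem_univ, iff_true]
        have : x ∈ K.E.toFinite.toFinset := by rw [h]; exact Finset.mem_univ _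
        exact (Set.Finite.mem_toFinset _).1 this
      have h2 := Finset.card_lt_card h1
      simpa using h2
    obtain ⟨m', hm'⟩ : ∃ m', (K.E.toFinite.toFinset).card = m' := ⟨_, rfl⟩
    rw [hm'] at hcard
    set ψ : Fin m' → Fin k := fun i => (K.E.toFinite.toFinset).orderEmbOfFin hm' i with hψ
    have hψi : Function.Injective ψ := ((K.E.toFinite.toFinset).orderEmbOfFin hm').injective
    have hr : range ψ = K.E := by
      have := Finset.range_orderEmbOfFin (K.E.toFinite.toFinset) hm'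
      rw [hψ, this]; exact Set.Finite.coe_toFinset _
    have hmem : ∀ i, ψ i ∈ K.E := fun i => by rw [← hr]; exact mem_range_self i
    set X'' : Finset ℕ := im φ X X' with hX''
    have him : ∀ B, im (fun i => φ (ψ i)) X'' B = im φ X (ψ '' B ∪ X') := by
      intro B
      ext j
      rw [mem_im, hX'', mem_im, mem_im]
      constructor
      · rintro (⟨i, hi, rfl⟩ | ⟨i, hi, rfl⟩ | h)
        · exact Or.inl ⟨ψ i, Or.inl ⟨i, hi, rfl⟩, rfl⟩
        · exact Or.inl ⟨i, Or.inr hi, rfl⟩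
        · exact Or.inr h
      · rintro (⟨i, ⟨l, hl, rfl⟩ | hi, rfl⟩ | h)
        · exact Or.inl ⟨l, hl, rfl⟩
        · exact Or.inr (Or.inl ⟨i, hi, rfl⟩)
        · exact Or.inr (Or.inr h)
    have hb : ∀ B : Set (Fin m'), K.IsBase (ψ '' B) ↔
        im (fun i => φ (ψ i)) X'' B ∈ SF lo hi n r \ C := by
      intro B
      rw [hX', mat_isBase, him]
      constructor
      · exact fun h => h.2
      · intro h
        refine ⟨?_, h⟩
        rintro _ ⟨i, _, rfl⟩
        exact hmem i
    have hE' : Emb n m' (SF lo hi n r \ C) (fun i => φ (ψ i)) X'' := by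
      refine ⟨fun i j h => hψi (hE.inj h), fun i => hE.lt _, ?_, ?_, ?_⟩
      · intro j hj
        rw [hX'', mem_im] at hj
        rcases hj with ⟨i, _, rfl⟩ | h
        · exact hE.lt i
        · exact hE.xlt j h
      · intro i h
        rw [hX''] at h
        have h' := (mem_im_iff hE).1 h
        exact Set.disjoint_left.1 hX'd h' (hmem i)
      · obtain ⟨B, hB⟩ := K.exists_isBase
        have h3 : ψ '' (ψ ⁻¹' B) = B :=
          Set.image_preimage_eq_of_subset (by rw [hr]; exact hB.subset_ground)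
        refine ⟨ψ ⁻¹' B, ?_⟩
        rw [← hb, h3]; exact hB
    have h4 := hmin m' hcard _ _ hE'
    have h5 : NCE univ (fun B' : Set (Fin m') => K.IsBase (ψ '' B')) := by
      have : (fun B' : Set (Fin m') => K.IsBase (ψ '' B')) =
          (fun B => im (fun i => φ (ψ i)) X'' B ∈ SF lo hi n r \ C) := by
        funext B; exact propext (hb B)
      rw [this]; exact h4
    have h6 := NCE_tr ψ hψi K.IsBase (fun B hB => by rw [hr]; exact hB.subset_ground) h5
    rw [hr] at h6
    exact h6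

end Pool.Agent.Helper442.Vec
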