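import Mathlib

set_option autoImplicit false

namespace Pool.Agent.Helper442.Vec

/-- One transfer step: an element which may be taken if `u`, left out if `v`; then the
height is restricted to the interval from `lo` to `hi`. -/
def stp (u v : Bool) (lo hi : ℤ) (A : ℤ → ℤ) (x : ℤ) : ℤ :=
  if lo ≤ x ∧ x ≤ hi then (if v = true then A x else 0) + (if u = true then A (x - 1) else 0) else 0

/-- The backward step. -/
def bstp (u v : Bool) (lo hi : ℤ) (B : ℤ → ℤ) (x : ℤ) : ℤ :=
  (if v = true then (if lo ≤ x ∧ x ≤ hi then B x else 0) else 0) +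
  (if u = true then (if lo ≤ x + 1 ∧ x + 1 ≤ hi then B (x + 1) else 0) else 0)

/-- Nonnegative and log-concave (strong form). -/
structure LC (A : ℤ → ℤ) : Prop where
  nn : ∀ x, 0 ≤ A x
  lc : ∀ x y, x ≤ y → A (x - 1) * A (y + 1) ≤ A x * A y

/-- Nonnegative, log-concave, with an extra margin around the height `h`. -/
structure Good (A : ℤ → ℤ) (h : ℤ) : Prop where
  nn : ∀ x, 0 ≤ A x
  lc : ∀ x y, x ≤ y → A (x - 1) * A (y + 1) ≤ A x * A y
  p1 : ∀ q, q ≤ h → A (q - 1) * A (h + 1) + A q ≤ A q * A h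
  p2 : ∀ q, h + 2 ≤ q → (A h + 1) * A q ≤ A (h + 1) * A (q - 1)
  p3 : A (h - 1) * A (h + 2) + A (h + 1) ≤ A h * A (h + 1)

/-- adding a free element -/
def fr (A : ℤ → ℤ) (x : ℤ) : ℤ := A x + A (x - 1)

/-- restriction to an interval -/
def tr (lo hi : ℤ) (A : ℤ → ℤ) (x : ℤ) : ℤ := if lo ≤ x ∧ x ≤ hi then A x else 0

/-- shift -/
def sh (A : ℤ → ℤ) (x : ℤ) : ℤ := A (x - 1)

theorem LC.fr {A : ℤ → ℤ} (hA : LC A) : LC (fr A) := by
  refine ⟨fun x => ?_, fun x y hxy => ?_⟩
  · have h1 := hA.nn x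
    have h2 := hA.nn (x - 1)
    simp only [Vec.fr]; omega
  · have h1 := hA.lc x y hxy
    have h2 := hA.lc (x - 1) (y - 1) (by omega)
    have h3 : A (x - 1 - 1) * A (y + 1) ≤ A x * A (y - 1) := by
      have a1 := hA.lc (x - 1) y (by omega)
      rcases eq_or_lt_of_le hxy with h | h
      · subst h; nlinarith
      · have a2 := hA.lc x (y - 1) (by omega)
        rw [show y - 1 + 1 = y by ring] at a2
        linarith
    simp only [Vec.fr]
    rw [show y + 1 - 1 = y by ring]
    rw [show y - 1 + 1 = y by ring] at h2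
    nlinarith

theorem LC.tr {A : ℤ → ℤ} (hA : LC A) (lo hi : ℤ) : LC (tr lo hi A) := by
  refine ⟨fun x => ?_, fun x y hxy => ?_⟩
  · have h1 := hA.nn x
    simp only [Vec.tr]; split_ifs <;> omega
  · have h1 := hA.lc x y hxy
    have h2 := mul_nonneg (hA.nn x) (hA.nn y)
    simp only [Vec.tr]
    by_cases c1 : lo ≤ x - 1 ∧ x - 1 ≤ hi
    · by_cases c2 : lo ≤ y + 1 ∧ y + 1 ≤ hi
      · rw [if_pos c1, if_pos c2, if_pos (by omega), if_pos (by omega)]; exact h1
      · rw [if_neg c2, mul_zero]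
        split_ifs <;> simp_all
    · rw [if_neg c1, zero_mul]
      split_ifs <;> simp_all

theorem LC.sh {A : ℤ → ℤ} (hA : LC A) : LC (sh A) := by
  refine ⟨fun x => hA.nn _, fun x y hxy => ?_⟩
  have := hA.lc (x - 1) (y - 1) (by omega)
  simp only [Vec.sh]
  rw [show y + 1 - 1 = y - 1 + 1 by ring]
  exact this

theorem Good.toLC {A : ℤ → ℤ} {h : ℤ} (hA : Good A h) : LC A := ⟨hA.nn, hA.lc⟩

theorem Good.sh {A : ℤ → ℤ} {h : ℤ} (hA : Good A h) : Good (sh A) (h + 1) := by
  refine ⟨hA.toLC.sh.nn, hA.toLC.sh.lc, fun q hq => ?_, fun q hq => ?_, ?_⟩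
  · have := hA.p1 (q - 1) (by omega)
    simp only [Vec.sh]
    rw [show h + 1 + 1 - 1 = h + 1 by ring, show h + 1 - 1 = h by ring]
    exact this
  · have := hA.p2 (q - 1) (by omega)
    simp only [Vec.sh]
    rw [show h + 1 + 1 - 1 = h + 1 by ring, show h + 1 - 1 = h by ring]
    exact this
  · have := hA.p3
    simp only [Vec.sh]
    rw [show h + 1 + 1 - 1 = h + 1 by ring, show h + 1 - 1 = h by ring,
      show h + 1 + 2 - 1 = h + 2 by ring]
    exact this

theorem Good.tr {A : ℤ → ℤ} {h : ℤ} (hA : Good A h) {lo hi : ℤ} (h1 : lo ≤ h) (h2 : h ≤ hi) :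
    Good (tr lo hi A) h := by
  refine ⟨(hA.toLC.tr lo hi).nn, (hA.toLC.tr lo hi).lc, fun q hq => ?_, fun q hq => ?_, ?_⟩
  · have e1 := hA.p1 q hq
    have e2 : 0 ≤ A (q - 1) * A (h + 1) := mul_nonneg (hA.nn _) (hA.nn _)
    simp only [Vec.tr]
    rw [if_pos (show lo ≤ h ∧ h ≤ hi from ⟨h1, h2⟩)]
    by_cases c : lo ≤ q ∧ q ≤ hi
    · rw [if_pos c]
      split_ifs <;> simp <;> linarith
    · rw [if_neg c, if_neg (show ¬ (lo ≤ q - 1 ∧ q - 1 ≤ hi) by omega)]
      simp
  · have e1 := hA.p2 q hq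
    simp only [Vec.tr]
    rw [if_pos (show lo ≤ h ∧ h ≤ hi from ⟨h1, h2⟩)]
    by_cases c : lo ≤ q ∧ q ≤ hi
    · rw [if_pos c, if_pos (show lo ≤ h + 1 ∧ h + 1 ≤ hi by omega),
        if_pos (show lo ≤ q - 1 ∧ q - 1 ≤ hi by omega)]
      exact e1
    · rw [if_neg c, mul_zero]
      have := hA.nn (h + 1)
      have := hA.nn (q - 1)
      split_ifs <;> simp <;> positivity
  · have e1 := hA.p3
    have e2 : 0 ≤ A (h - 1) * A (h + 2) := mul_nonneg (hA.nn _) (hA.nn _)
    simp only [Vec.tr]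
    rw [if_pos (show lo ≤ h ∧ h ≤ hi from ⟨h1, h2⟩)]
    by_cases c : lo ≤ h + 1 ∧ h + 1 ≤ hi
    · rw [if_pos c]
      split_ifs <;> simp <;> linarith
    · rw [if_neg c, if_neg (show ¬ (lo ≤ h + 2 ∧ h + 2 ≤ hi) by omega)]
      simp

/-- free element, not taken by the distinguished path -/
theorem Good.fr0 {A : ℤ → ℤ} {h : ℤ} (hA : Good A h) : Good (fr A) h := by
  refine ⟨hA.toLC.fr.nn, hA.toLC.fr.lc, fun q hq => ?_, fun q hq => ?_, ?_⟩
  · simp only [Vec.fr]
    rw [show h + 1 - 1 = h by ring]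
    have e1 := hA.p1 q hq
    have e2 := hA.p1 (q - 1) (by omega)
    have e3 := hA.lc (q - 1) (h - 1) (by omega)
    rw [show h - 1 + 1 = h by ring] at e3
    have e4 : A (q - 1) * A h ≤ A q * A (h - 1) := by
      rcases eq_or_lt_of_le hq with c | c
      · subst c; linarith
      · have := hA.lc q (h - 1) (by omega)
        rwa [show h - 1 + 1 = h by ring] at this
    nlinarith
  · simp only [Vec.fr]
    rw [show h + 1 - 1 = h by ring]
    have e1 := hA.p2 q hq
    have e2 : A (h - 1) * A (q - 1) ≤ A h * A (q - 1 - 1) := by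
      have := hA.lc h (q - 1 - 1) (by omega)
      rwa [show q - 1 - 1 + 1 = q - 1 by ring] at this
    have e3 : A (h - 1) * A q ≤ A h * A (q - 1) := by
      have := hA.lc h (q - 1) (by omega)
      rwa [show q - 1 + 1 = q by ring] at this
    have e4 : A (q - 1) + A (h - 1) * A q ≤ A (h + 1) * A (q - 1 - 1) := by
      rcases eq_or_lt_of_le hq with c | c
      · subst c
        have := hA.p3
        rw [show h + 2 - 1 = h + 1 by ring, show h + 1 - 1 = h by ring]
        nlinarith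
      · have := hA.p2 (q - 1) (by omega)
        nlinarith
    nlinarith
  · simp only [Vec.fr]
    rw [show h + 1 - 1 = h by ring, show h + 2 - 1 = h + 1 by ring]
    have e1 := hA.p3
    have e2 := hA.p1 h le_rfl
    have e3 : A (h - 1 - 1) * A (h + 2) ≤ A (h - 1) * A (h + 1) := by
      have := hA.lc (h - 1) (h + 1) (by omega)
      rwa [show h + 1 + 1 = h + 2 by ring] at this
    have e4 := hA.lc (h - 1) h (by omega)
    nlinarith

/-- free element, taken by the distinguished path -/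
theorem Good.fr1 {A : ℤ → ℤ} {h : ℤ} (hA : Good A h) : Good (fr A) (h + 1) := by
  refine ⟨hA.toLC.fr.nn, hA.toLC.fr.lc, fun q hq => ?_, fun q hq => ?_, ?_⟩
  · simp only [Vec.fr]
    rw [show h + 1 + 1 - 1 = h + 1 by ring, show h + 1 + 1 = h + 2 by ring,
      show h + 1 - 1 = h by ring]
    have e1 : A (q - 1) * A (h + 2) ≤ A q * A (h + 1) := by
      have := hA.lc q (h + 1) (by omega)
      rwa [show h + 1 + 1 = h + 2 by ring] at this
    have e2 := hA.p1 (q - 1) (by omega)
    have e3 : A (q - 1 - 1) * A (h + 2) + A q ≤ A q * A h := by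
      rcases eq_or_lt_of_le hq with c | c
      · subst c
        have := hA.p3
        rw [show h + 1 - 1 - 1 = h - 1 by ring]
        nlinarith
      · have a1 := hA.p1 q (by omega)
        have a2 := hA.lc (q - 1) (h + 1) (by omega)
        rw [show h + 1 + 1 = h + 2 by ring] at a2
        linarith
    nlinarith
  · simp only [Vec.fr]
    rw [show h + 1 + 1 - 1 = h + 1 by ring, show h + 1 + 1 = h + 2 by ring,
      show h + 1 - 1 = h by ring]
    have e1 : A (h + 1) * A q ≤ A (h + 2) * A (q - 1) := by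
      have := hA.lc (h + 2) (q - 1) (by omega)
      rwa [show h + 2 - 1 = h + 1 by ring, show q - 1 + 1 = q by ring] at this
    have e2 := hA.p2 (q - 1) (by omega)
    have e3 : (A h + 1) * A q ≤ A (h + 2) * A (q - 1 - 1) := by
      have a1 := hA.p2 q (by omega)
      rcases eq_or_lt_of_le hq with c | c
      · subst c
        rw [show h + 1 + 2 - 1 - 1 = h + 1 by ring]
        rw [show h + 1 + 2 - 1 = h + 2 by ring] at a1
        linarith
      · have a2 := hA.lc (h + 2) (q - 1 - 1) (by omega)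
        rw [show h + 2 - 1 = h + 1 by ring, show q - 1 - 1 + 1 = q - 1 by ring] at a2
        linarith
    nlinarith
  · simp only [Vec.fr]
    rw [show h + 1 + 1 - 1 = h + 1 by ring, show h + 1 + 1 = h + 2 by ring,
      show h + 1 - 1 = h by ring, show h + 1 + 2 - 1 = h + 2 by ring,
      show h + 1 + 2 = h + 3 by ring]
    have e1 := hA.p3
    have e2 := hA.p2 (h + 3) (by omega)
    rw [show h + 3 - 1 = h + 2 by ring] at e2
    have e3 := hA.p2 (h + 2) le_rfl
    rw [show h + 2 - 1 = h + 1 by ring] at e3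
    have e4 : A (h - 1) * A (h + 3) ≤ A h * A (h + 2) := by
      have := hA.lc h (h + 2) (by omega)
      rwa [show h + 2 + 1 = h + 3 by ring] at this
    have e5 := hA.nn (h + 3)
    nlinarith

end Pool.Agent.Helper442.Vec
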